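import Mathlib
import Pool.Agent.H99.CP.Comb

/-!
# Graphs with large clique cover number: definitions

Types are the members of `Finset (Fin k)` (the set of the cliques of a cover which contain a
vertex); two types are adjacent if they meet.  `m` is a mass on the types, `Y` a dual kernel.
-/

open Finset

namespace Pool.Agent.H99.LK

open Pool.Agent.H69.CPR Pool.Agent.H99.CP

variable {k : ℕ}

/-- mass of the members of `U` which meet `A` -/
noncomputable def dg (m : Finset (Fin k) → ℝ) (U : Finset (Finset (Fin k)))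
    (A : Finset (Fin k)) : ℝ :=
  ∑ B ∈ U, if (A ∩ B).Nonempty then m B else 0

/-- mass of the ordered pairs of members of `U` which meet (`A = B` allowed) -/
noncomputable def ad (m : Finset (Fin k) → ℝ) (U : Finset (Finset (Fin k))) : ℝ :=
  ∑ A ∈ U, m A * dg m U A

/-- mass of the pairs of `U × L` which meet -/
noncomputable def aj (m : Finset (Fin k) → ℝ) (U L : Finset (Finset (Fin k))) : ℝ :=
  ∑ A ∈ U, ∑ B ∈ L, if (A ∩ B).Nonempty then m A * m B else 0

/-- energy inside `U` -/
noncomputable def en (Y : Finset (Fin k) → Finset (Fin k) → ℝ) (m : Finset (Fin k) → ℝ)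
    (U : Finset (Finset (Fin k))) : ℝ :=
  ∑ A ∈ U, ∑ B ∈ U, -(Y A B) * (m A * m B)

/-- loss between `U` and `L` -/
noncomputable def om (Y : Finset (Fin k) → Finset (Fin k) → ℝ) (m : Finset (Fin k) → ℝ)
    (U L : Finset (Finset (Fin k))) : ℝ :=
  ∑ A ∈ U, ∑ B ∈ L, (1 - Y A B) * (m A * m B)

end Pool.Agent.H99.LK
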