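import Mathlib
import Pool.Agent.H99.LK.Defs

/-!
# Patterns with two types on each side

`low1`: pattern `A, A', B`.  If `A ∩ B` and `A' ∩ B` are nonempty use `MK.three98` on the
restriction of `Y` to `{A, A', B}` (`TMK.restrict`); otherwise one of `Y A B`, `Y A' B` is `0`
(`TMK.adj`), the other is at most `1` (`TMK.le_one`), and the left side is `≤ 0 ≤ -Y A A'`.

`low2`: if all four cross pairs meet use `MK.four98` on `{A, A', B, B'}`: the sum of the six
values is at most `1`, so `-(Y A A') - Y B B' ≥ 3 - (sum of the four losses)` and the losses are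
`≥ 0`.  Otherwise, say `A ∩ B = ∅` (the other three cases are the same by symmetry; `Y A B = 0`):
`low1` for `A, A', B'` and for `B, B', A'` gives
`-(Y A A') ≥ Y A B' + Y A' B' - 1` and `-(Y B B') ≥ Y A' B + Y A' B' - 1`; add.
-/

open Finset

namespace Pool.Agent.H99.LK

open Pool.Agent.H69.CPR Pool.Agent.H99.CP

variable {k : ℕ} {Y : Finset (Fin k) → Finset (Fin k) → ℝ}

theorem low1 (hY : TMK Y) {A A' B : Finset (Fin k)} (hAA : (A ∩ A').Nonempty)
    (h0 : Y A A' ≤ 0) : Y A B + Y A' B - 1 ≤ -(Y A A') := by
  classical
  by_cases h1 : (A ∩ B).Nonempty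
  · by_cases h2 : (A' ∩ B).Nonempty
    · have hr := hY.restrict {A, A', B} (by
        have a1 : (A ∩ A).Nonempty := by
          rw [Finset.inter_self]; exact hAA.mono Finset.inter_subset_left
        have a2 : (A' ∩ A').Nonempty := by
          rw [Finset.inter_self]; exact hAA.mono Finset.inter_subset_right
        have a3 : (B ∩ B).Nonempty := by
          rw [Finset.inter_self]; exact h1.mono Finset.inter_subset_right
        have b1 : (A' ∩ A).Nonempty := by rw [Finset.inter_comm]; exact hAA
        have b2 : (B ∩ A).Nonempty := by rw [Finset.inter_comm]; exact h1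
        have b3 : (B ∩ A').Nonempty := by rw [Finset.inter_comm]; exact h2
        intro E hE F hF
        simp only [Finset.mem_insert, Finset.mem_singleton] at hE hF
        rcases hE with rfl | rfl | rfl <;> rcases hF with rfl | rfl | rfl <;> assumption)
      have h3 := hr.three98 ⟨A, by simp⟩ ⟨A', by simp⟩ ⟨B, by simp⟩
      simp only at h3
      linarith
    · have h3 := hY.adj A' B h2
      have h4 := hY.le_one A B
      linarith
  · have h3 := hY.adj A B h1
    have h4 := hY.le_one A' B
    linarith

theorem low2 (hY : TMK Y) {A A' B B' : Finset (Fin k)} (hA : (A ∩ A').Nonempty)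
    (hB : (B ∩ B').Nonempty) (h0 : Y A A' ≤ 0) (h0' : Y B B' ≤ 0) :
    3 - 2 * ((1 - Y A B) + (1 - Y A B') + (1 - Y A' B) + (1 - Y A' B'))
      ≤ -(Y A A') - Y B B' := by
  classical
  have l1 := hY.le_one A B
  have l2 := hY.le_one A B'
  have l3 := hY.le_one A' B
  have l4 := hY.le_one A' B'
  have s1 := hY.sym B A
  have s2 := hY.sym B A'
  have s3 := hY.sym B' A
  have s4 := hY.sym B' A'
  have p1 := low1 hY (B := B) hA h0
  have p2 := low1 hY (B := B') hA h0
  have p3 := low1 hY (B := A) hB h0'
  have p4 := low1 hY (B := A') hB h0'
  by_cases h1 : (A ∩ B).Nonempty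
  · by_cases h2 : (A ∩ B').Nonempty
    · by_cases h3 : (A' ∩ B).Nonempty
      · by_cases h4 : (A' ∩ B').Nonempty
        · have hr := hY.restrict {A, A', B, B'} (by
            have a1 : (A ∩ A).Nonempty := by
              rw [Finset.inter_self]; exact hA.mono Finset.inter_subset_left
            have a2 : (A' ∩ A').Nonempty := by
              rw [Finset.inter_self]; exact hA.mono Finset.inter_subset_right
            have a3 : (B ∩ B).Nonempty := by
              rw [Finset.inter_self]; exact hB.mono Finset.inter_subset_left
            have a4 : (B' ∩ B').Nonempty := by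
              rw [Finset.inter_self]; exact hB.mono Finset.inter_subset_right
            have b1 : (A' ∩ A).Nonempty := by rw [Finset.inter_comm]; exact hA
            have b2 : (B' ∩ B).Nonempty := by rw [Finset.inter_comm]; exact hB
            have c1 : (B ∩ A).Nonempty := by rw [Finset.inter_comm]; exact h1
            have c2 : (B' ∩ A).Nonempty := by rw [Finset.inter_comm]; exact h2
            have c3 : (B ∩ A').Nonempty := by rw [Finset.inter_comm]; exact h3
            have c4 : (B' ∩ A').Nonempty := by rw [Finset.inter_comm]; exact h4
            intro E hE F hF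
            simp only [Finset.mem_insert, Finset.mem_singleton] at hE hF
            rcases hE with rfl | rfl | rfl | rfl <;> rcases hF with rfl | rfl | rfl | rfl <;>
              assumption)
          have h5 := hr.four98 ⟨A, by simp⟩ ⟨A', by simp⟩ ⟨B, by simp⟩ ⟨B', by simp⟩
          simp only at h5
          linarith
        · have h5 := hY.adj A' B' h4
          linarith
      · have h5 := hY.adj A' B h3
        linarith
    · have h5 := hY.adj A B' h2
      linarith
  · have h5 := hY.adj A B h1
    linarith

end Pool.Agent.H99.LK
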