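import Mathlib
import Pool.Agent.H99.LK.Pat

/-!
# Averaged pattern inequality, one side

`avg1`: for `A, A' ∈ U` which meet, `low1` averaged over `B ∈ L` with the weights `m B / l` gives
`-(Y A A') ≥ 1 - (∑_B (1 - Y A B) m B + ∑_B (1 - Y A' B) m B) / l ≥ 1 - 2 θ / l`.  Multiply by
`m A * m A'` and sum over the pairs which meet; pairs which do not meet have `Y A A' = 0`.
-/

open Finset

namespace Pool.Agent.H99.LK

open Pool.Agent.H69.CPR Pool.Agent.H99.CP

variable {k : ℕ} {Y : Finset (Fin k) → Finset (Fin k) → ℝ} {m : Finset (Fin k) → ℝ}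
  {U L : Finset (Finset (Fin k))}

theorem avg1 (hY : TMK Y) (hm : ∀ A, 0 ≤ m A) (hU : ∀ A ∈ U, ∀ A' ∈ U, Y A A' ≤ 0)
    {l θ : ℝ} (hl : ∑ B ∈ L, m B = l) (hl0 : 0 < l)
    (hθ : ∀ A ∈ U, ∑ B ∈ L, (1 - Y A B) * m B ≤ θ) :
    (1 - 2 * θ / l) * ad m U ≤ en Y m U := by
  unfold ad en dg
  rw [Finset.mul_sum]
  refine Finset.sum_le_sum fun A hA => ?_
  rw [Finset.mul_sum, Finset.mul_sum]
  refine Finset.sum_le_sum fun A' hA' => ?_
  by_cases hAA : (A ∩ A').Nonempty
  · rw [if_pos hAA]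
    have h1 : l - 2 * θ ≤ -(Y A A') * l := by
      have h2 : ∑ B ∈ L, (Y A B + Y A' B - 1) * m B ≤ ∑ B ∈ L, -(Y A A') * m B :=
        Finset.sum_le_sum fun B _ =>
          mul_le_mul_of_nonneg_right (low1 hY hAA (hU A hA A' hA')) (hm B)
      have h3 : ∑ B ∈ L, (Y A B + Y A' B - 1) * m B =
          ∑ B ∈ L, m B - ∑ B ∈ L, (1 - Y A B) * m B - ∑ B ∈ L, (1 - Y A' B) * m B := by
        rw [← Finset.sum_sub_distrib, ← Finset.sum_sub_distrib]
        refine Finset.sum_congr rfl fun B _ => ?_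
        ring
      rw [h3, ← Finset.mul_sum, hl] at h2
      have h4 := hθ A hA
      have h5 := hθ A' hA'
      linarith
    have h2 : 1 - 2 * θ / l ≤ -(Y A A') := by
      have h3 : (1 - 2 * θ / l) * l = l - 2 * θ := by
        field_simp
      have h4 : (1 - 2 * θ / l) * l ≤ -(Y A A') * l := by rw [h3]; exact h1
      exact le_of_mul_le_mul_right h4 hl0
    have h5 := mul_le_mul_of_nonneg_right h2 (mul_nonneg (hm A) (hm A'))
    linarith
  · rw [if_neg hAA, hY.adj A A' hAA]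
    simp

end Pool.Agent.H99.LK
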