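import Mathlib
import Pool.Agent.H99.LK.Pat

/-!
# Averaged pattern inequality, two sides

`avg2`: `low2` multiplied by `m A * m A' * m B * m B'`, summed over `A, A' ∈ U` which meet and
`B, B' ∈ L` which meet (pairs inside `U` or inside `L` which do not meet have `Y = 0`).  The main
terms are `en U * ad L + en L * ad U ≥ 3 * ad U * ad L - error`; each of the four error terms equals
`2 * ∑ A ∈ U, ∑ B ∈ L, (1 - Y A B) * (m A * dg m U A) * (m B * dg m L B)`, which is at most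
`2 τ² om`, since `0 ≤ 1 - Y A B` (`TMK.le_one`) and `0 ≤ dg ≤ τ`.
-/

open Finset

namespace Pool.Agent.H99.LK

open Pool.Agent.H69.CPR Pool.Agent.H99.CP

section Abs

variable {ι : Type*}

/-- the product of two double sums -/
theorem avg2_prod (U L : Finset ι) (c d : ι → ι → ℝ) :
    ∑ A ∈ U, ∑ A' ∈ U, ∑ B ∈ L, ∑ B' ∈ L, c A A' * d B B' =
      (∑ A ∈ U, ∑ A' ∈ U, c A A') * (∑ B ∈ L, ∑ B' ∈ L, d B B') := by
  rw [Finset.sum_mul]
  refine Finset.sum_congr rfl fun A _ => ?_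
  rw [Finset.sum_mul]
  refine Finset.sum_congr rfl fun A' _ => ?_
  rw [Finset.mul_sum]
  refine Finset.sum_congr rfl fun B _ => ?_
  rw [Finset.mul_sum]

/-- one error term -/
theorem avg2_err (U L : Finset ι) (a f : ι → ι → ℝ) (m : ι → ℝ) {τ : ℝ} (hτ : 0 ≤ τ)
    (hm : ∀ x, 0 ≤ m x) (ha : ∀ x y, 0 ≤ a x y) (hf : ∀ x ∈ U, ∀ y ∈ L, 0 ≤ f x y)
    (hU : ∀ x ∈ U, ∑ y ∈ U, a x y ≤ τ * m x) (hL : ∀ x ∈ L, ∑ y ∈ L, a x y ≤ τ * m x) :
    ∑ A ∈ U, ∑ A' ∈ U, ∑ B ∈ L, ∑ B' ∈ L, a A A' * a B B' * f A B ≤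
      τ ^ 2 * ∑ A ∈ U, ∑ B ∈ L, f A B * (m A * m B) := by
  rw [Finset.mul_sum]
  refine Finset.sum_le_sum fun A hA => ?_
  rw [Finset.sum_comm, Finset.mul_sum]
  refine Finset.sum_le_sum fun B hB => ?_
  have h1 : ∑ A' ∈ U, ∑ B' ∈ L, a A A' * a B B' * f A B =
      f A B * ((∑ A' ∈ U, a A A') * (∑ B' ∈ L, a B B')) := by
    rw [Finset.sum_mul_sum, Finset.mul_sum]
    refine Finset.sum_congr rfl fun A' _ => ?_
    rw [Finset.mul_sum]
    refine Finset.sum_congr rfl fun B' _ => ?_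
    ring
  rw [h1]
  have h2 : (∑ A' ∈ U, a A A') * (∑ B' ∈ L, a B B') ≤ (τ * m A) * (τ * m B) :=
    mul_le_mul (hU A hA) (hL B hB) (Finset.sum_nonneg fun _ _ => ha _ _)
      (mul_nonneg hτ (hm A))
  calc f A B * ((∑ A' ∈ U, a A A') * (∑ B' ∈ L, a B B'))
      ≤ f A B * ((τ * m A) * (τ * m B)) := mul_le_mul_of_nonneg_left h2 (hf A hA B hB)
    _ = τ ^ 2 * (f A B * (m A * m B)) := by ring

theorem avg2_err2 (U L : Finset ι) (a f : ι → ι → ℝ) (m : ι → ℝ) {τ : ℝ} (hτ : 0 ≤ τ)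
    (hsym : ∀ x y, a x y = a y x)
    (hm : ∀ x, 0 ≤ m x) (ha : ∀ x y, 0 ≤ a x y) (hf : ∀ x ∈ U, ∀ y ∈ L, 0 ≤ f x y)
    (hU : ∀ x ∈ U, ∑ y ∈ U, a x y ≤ τ * m x) (hL : ∀ x ∈ L, ∑ y ∈ L, a x y ≤ τ * m x) :
    ∑ A ∈ U, ∑ A' ∈ U, ∑ B ∈ L, ∑ B' ∈ L, a A A' * a B B' * f A B' ≤
      τ ^ 2 * ∑ A ∈ U, ∑ B ∈ L, f A B * (m A * m B) := by
  refine le_trans (le_of_eq ?_) (avg2_err U L a f m hτ hm ha hf hU hL)
  refine Finset.sum_congr rfl fun A _ => Finset.sum_congr rfl fun A' _ => ?_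
  rw [Finset.sum_comm]
  refine Finset.sum_congr rfl fun B _ => Finset.sum_congr rfl fun B' _ => ?_
  rw [hsym B' B]

theorem avg2_err3 (U L : Finset ι) (a f : ι → ι → ℝ) (m : ι → ℝ) {τ : ℝ} (hτ : 0 ≤ τ)
    (hsym : ∀ x y, a x y = a y x)
    (hm : ∀ x, 0 ≤ m x) (ha : ∀ x y, 0 ≤ a x y) (hf : ∀ x ∈ U, ∀ y ∈ L, 0 ≤ f x y)
    (hU : ∀ x ∈ U, ∑ y ∈ U, a x y ≤ τ * m x) (hL : ∀ x ∈ L, ∑ y ∈ L, a x y ≤ τ * m x) :
    ∑ A ∈ U, ∑ A' ∈ U, ∑ B ∈ L, ∑ B' ∈ L, a A A' * a B B' * f A' B ≤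
      τ ^ 2 * ∑ A ∈ U, ∑ B ∈ L, f A B * (m A * m B) := by
  refine le_trans (le_of_eq ?_) (avg2_err U L a f m hτ hm ha hf hU hL)
  rw [Finset.sum_comm]
  refine Finset.sum_congr rfl fun A _ => Finset.sum_congr rfl fun A' _ => ?_
  refine Finset.sum_congr rfl fun B _ => Finset.sum_congr rfl fun B' _ => ?_
  rw [hsym A' A]

theorem avg2_err4 (U L : Finset ι) (a f : ι → ι → ℝ) (m : ι → ℝ) {τ : ℝ} (hτ : 0 ≤ τ)
    (hsym : ∀ x y, a x y = a y x)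
    (hm : ∀ x, 0 ≤ m x) (ha : ∀ x y, 0 ≤ a x y) (hf : ∀ x ∈ U, ∀ y ∈ L, 0 ≤ f x y)
    (hU : ∀ x ∈ U, ∑ y ∈ U, a x y ≤ τ * m x) (hL : ∀ x ∈ L, ∑ y ∈ L, a x y ≤ τ * m x) :
    ∑ A ∈ U, ∑ A' ∈ U, ∑ B ∈ L, ∑ B' ∈ L, a A A' * a B B' * f A' B' ≤
      τ ^ 2 * ∑ A ∈ U, ∑ B ∈ L, f A B * (m A * m B) := by
  refine le_trans (le_of_eq ?_) (avg2_err2 U L a f m hτ hsym hm ha hf hU hL)
  rw [Finset.sum_comm]
  refine Finset.sum_congr rfl fun A _ => Finset.sum_congr rfl fun A' _ => ?_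
  refine Finset.sum_congr rfl fun B _ => Finset.sum_congr rfl fun B' _ => ?_
  rw [hsym A' A]

end Abs

variable {k : ℕ} {Y : Finset (Fin k) → Finset (Fin k) → ℝ} {m : Finset (Fin k) → ℝ}
  {U L : Finset (Finset (Fin k))}

theorem avg2 (hY : TMK Y) (hm : ∀ A, 0 ≤ m A) (hU : ∀ A ∈ U, ∀ A' ∈ U, Y A A' ≤ 0)
    (hL : ∀ B ∈ L, ∀ B' ∈ L, Y B B' ≤ 0) {τ : ℝ} (hτ : 0 ≤ τ)
    (hdU : ∀ A ∈ U, dg m U A ≤ τ) (hdL : ∀ B ∈ L, dg m L B ≤ τ) :
    3 * (ad m U * ad m L) - 8 * τ ^ 2 * om Y m U L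
      ≤ en Y m U * ad m L + en Y m L * ad m U := by
  set a : Finset (Fin k) → Finset (Fin k) → ℝ :=
    fun A B => if (A ∩ B).Nonempty then m A * m B else 0 with ha_def
  have hsym : ∀ x y, a x y = a y x := by
    intro x y
    simp only [ha_def]
    rw [Finset.inter_comm x y, mul_comm (m x)]
  have ha : ∀ x y, 0 ≤ a x y := by
    intro x y
    simp only [ha_def]
    split_ifs
    · exact mul_nonneg (hm x) (hm y)
    · exact le_rfl
  have hdg : ∀ (S : Finset (Finset (Fin k))) x, ∑ y ∈ S, a x y = m x * dg m S x := by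
    intro S x
    unfold dg
    rw [Finset.mul_sum]
    refine Finset.sum_congr rfl fun y _ => ?_
    simp only [ha_def]
    split_ifs
    · rfl
    · rw [mul_zero]
  have had : ∀ S : Finset (Finset (Fin k)), ad m S = ∑ A ∈ S, ∑ A' ∈ S, a A A' := by
    intro S
    unfold ad
    exact Finset.sum_congr rfl fun A _ => (hdg S A).symm
  have hen : ∀ S : Finset (Finset (Fin k)), en Y m S = ∑ A ∈ S, ∑ A' ∈ S, -(Y A A') * a A A' := by
    intro S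
    unfold en
    refine Finset.sum_congr rfl fun A _ => Finset.sum_congr rfl fun A' _ => ?_
    simp only [ha_def]
    split_ifs with h
    · rfl
    · rw [hY.adj A A' h, neg_zero, zero_mul, zero_mul]
  have hbU : ∀ x ∈ U, ∑ y ∈ U, a x y ≤ τ * m x := by
    intro x hx
    rw [hdg, mul_comm]
    exact mul_le_mul_of_nonneg_right (hdU x hx) (hm x)
  have hbL : ∀ x ∈ L, ∑ y ∈ L, a x y ≤ τ * m x := by
    intro x hx
    rw [hdg, mul_comm]
    exact mul_le_mul_of_nonneg_right (hdL x hx) (hm x)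
  have hf : ∀ x ∈ U, ∀ y ∈ L, 0 ≤ 1 - Y x y := fun x _ y _ => sub_nonneg.2 (hY.le_one x y)
  have hpt : ∀ A ∈ U, ∀ A' ∈ U, ∀ B ∈ L, ∀ B' ∈ L,
      3 * (a A A' * a B B') ≤ ((-(Y A A') * a A A') * a B B' + a A A' * (-(Y B B') * a B B')) +
        (2 * (a A A' * a B B' * (1 - Y A B)) + 2 * (a A A' * a B B' * (1 - Y A B')) +
        2 * (a A A' * a B B' * (1 - Y A' B)) + 2 * (a A A' * a B B' * (1 - Y A' B'))) := by
    intro A hA A' hA' B hB B' hB'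
    by_cases h1 : (A ∩ A').Nonempty
    · by_cases h2 : (B ∩ B').Nonempty
      · have h3 := low2 hY h1 h2 (hU A hA A' hA') (hL B hB B' hB')
        have h4 : 0 ≤ a A A' * a B B' := mul_nonneg (ha _ _) (ha _ _)
        have h5 := mul_le_mul_of_nonneg_left h3 h4
        nlinarith [h5]
      · have h3 : a B B' = 0 := by simp only [ha_def]; rw [if_neg h2]
        rw [h3]
        simp
    · have h3 : a A A' = 0 := by simp only [ha_def]; rw [if_neg h1]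
      rw [h3]
      simp
  have hsum := Finset.sum_le_sum fun A hA => Finset.sum_le_sum fun A' hA' =>
    Finset.sum_le_sum fun B hB => Finset.sum_le_sum fun B' hB' => hpt A hA A' hA' B hB B' hB'
  simp only [Finset.sum_add_distrib, ← Finset.mul_sum] at hsum
  have e1 := avg2_err U L a (fun x y => 1 - Y x y) m hτ hm ha hf hbU hbL
  have e2 := avg2_err2 U L a (fun x y => 1 - Y x y) m hτ hsym hm ha hf hbU hbL
  have e3 := avg2_err3 U L a (fun x y => 1 - Y x y) m hτ hsym hm ha hf hbU hbL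
  have e4 := avg2_err4 U L a (fun x y => 1 - Y x y) m hτ hsym hm ha hf hbU hbL
  have p1 := avg2_prod U L a a
  have p2 := avg2_prod U L (fun x y => -(Y x y) * a x y) a
  have p3 := avg2_prod U L a (fun x y => -(Y x y) * a x y)
  rw [had, had, hen, hen]
  have hom : om Y m U L = ∑ A ∈ U, ∑ B ∈ L, (1 - Y A B) * (m A * m B) := rfl
  rw [hom]
  simp only [← Finset.mul_sum] at e1 e2 e3 e4 p1 p2 p3
  nlinarith [hsum, e1, e2, e3, e4, p1, p2, p3]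

end Pool.Agent.H99.LK
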