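import Mathlib
import Pool.Agent.H99.LK.Defs

/-!
# The covering inequality

`(mass of the pairs of U × L which meet)² ≤ k (ad U) (ad L)`.

Proof.  Write `Δ A = dg m U A`, `Δ' B = dg m L B`.
(1) For every `i : Fin k`: `∑ A ∈ U with i ∈ A, m A / Δ A ≤ 1`, since for such `A` one has
`Δ A ≥ α_i := ∑ A' ∈ U with i ∈ A', m A'` (all these `A'` meet `A`), and
`∑ A ∈ U with i ∈ A, m A / α_i ≤ 1` (if `α_i = 0` all the `m A` are `0`).  Same for `L`.
(2) Every pair `(A, B)` which meets has some `i ∈ A ∩ B`, so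
`∑_{(A, B) meet} (m A / Δ A) (m B / Δ' B) ≤ ∑ i, (∑_{A ∋ i} m A / Δ A) (∑_{B ∋ i} m B / Δ' B) ≤ k`.
(3) Cauchy-Schwarz (`Finset.sum_sq_le_sum_mul_sum_of_sq_eq_mul`) over the meeting pairs with
`r = m A * m B`, `f = (m A / Δ A) (m B / Δ' B)`, `g = m A m B Δ A Δ' B`; `r² = f g` because
`Δ A = 0` implies `m A = 0` (`m A ≤ Δ A` as `A` meets itself, being nonempty).
`∑ g ≤ (∑ A ∈ U, m A Δ A) (∑ B ∈ L, m B Δ' B) = ad U * ad L`.
-/

open Finset

namespace Pool.Agent.H99.LK

variable {k : ℕ}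

theorem dg_nonneg' (m : Finset (Fin k) → ℝ) (hm : ∀ A, 0 ≤ m A) (U : Finset (Finset (Fin k)))
    (A : Finset (Fin k)) : 0 ≤ dg m U A := by
  unfold dg
  refine Finset.sum_nonneg fun B _ => ?_
  split_ifs
  · exact hm B
  · exact le_rfl

theorem le_dg_self (m : Finset (Fin k) → ℝ) (hm : ∀ A, 0 ≤ m A) (U : Finset (Finset (Fin k)))
    {A : Finset (Fin k)} (hA : A ∈ U) (hne : A.Nonempty) : m A ≤ dg m U A := by
  unfold dg
  have h1 : (if (A ∩ A).Nonempty then m A else 0) ≤
      ∑ B ∈ U, if (A ∩ B).Nonempty then m B else 0 := by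
    refine Finset.single_le_sum (f := fun B => if (A ∩ B).Nonempty then m B else 0) ?_ hA
    intro B _
    split_ifs
    · exact hm B
    · exact le_rfl
  rw [Finset.inter_self, if_pos hne] at h1
  exact h1

theorem cover_one (m : Finset (Fin k) → ℝ) (hm : ∀ A, 0 ≤ m A) (U : Finset (Finset (Fin k)))
    (i : Fin k) : (∑ A ∈ U, if i ∈ A then m A / dg m U A else 0) ≤ 1 := by
  rw [← Finset.sum_filter]
  obtain ⟨α, hα⟩ : ∃ α, α = ∑ A ∈ U.filter (fun A => i ∈ A), m A := ⟨_, rfl⟩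
  have h1 : ∀ A ∈ U.filter (fun A => i ∈ A), α ≤ dg m U A := by
    intro A hA
    rw [Finset.mem_filter] at hA
    rw [hα, Finset.sum_filter]
    unfold dg
    refine Finset.sum_le_sum fun B _ => ?_
    by_cases hB : i ∈ B
    · rw [if_pos hB, if_pos ⟨i, Finset.mem_inter.2 ⟨hA.2, hB⟩⟩]
    · rw [if_neg hB]
      split_ifs
      · exact hm B
      · exact le_rfl
  have h0 : 0 ≤ α := by
    rw [hα]
    exact Finset.sum_nonneg fun A _ => hm A
  rcases h0.eq_or_lt with h | h
  · have h2 : ∀ A ∈ U.filter (fun A => i ∈ A), m A = 0 := by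
      rw [← Finset.sum_eq_zero_iff_of_nonneg fun A _ => hm A]
      rw [← hα, ← h]
    rw [Finset.sum_eq_zero fun A hA => by rw [h2 A hA, zero_div]]
    exact zero_le_one
  · calc ∑ A ∈ U.filter (fun A => i ∈ A), m A / dg m U A
        ≤ ∑ A ∈ U.filter (fun A => i ∈ A), m A / α := by
          refine Finset.sum_le_sum fun A hA => ?_
          exact div_le_div_of_nonneg_left (hm A) h (h1 A hA)
      _ = α / α := by rw [← Finset.sum_div, ← hα]
      _ = 1 := div_self h.ne'

theorem cover (m : Finset (Fin k) → ℝ) (hm : ∀ A, 0 ≤ m A) (U L : Finset (Finset (Fin k))) :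
    aj m U L ^ 2 ≤ k * (ad m U * ad m L) := by
  classical
  let P : Finset (Finset (Fin k) × Finset (Fin k)) :=
    (U ×ˢ L).filter fun p => (p.1 ∩ p.2).Nonempty
  let f : Finset (Fin k) × Finset (Fin k) → ℝ := fun p =>
    (m p.1 / dg m U p.1) * (m p.2 / dg m L p.2)
  let g : Finset (Fin k) × Finset (Fin k) → ℝ := fun p =>
    (m p.1 * dg m U p.1) * (m p.2 * dg m L p.2)
  have hdU := dg_nonneg' m hm U
  have hdL := dg_nonneg' m hm L
  have haj : aj m U L = ∑ p ∈ P, m p.1 * m p.2 := by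
    unfold aj
    rw [Finset.sum_filter, Finset.sum_product]
  have hf0 : ∀ p, 0 ≤ f p := fun p =>
    mul_nonneg (div_nonneg (hm _) (hdU _)) (div_nonneg (hm _) (hdL _))
  have hg0 : ∀ p, 0 ≤ g p := fun p =>
    mul_nonneg (mul_nonneg (hm _) (hdU _)) (mul_nonneg (hm _) (hdL _))
  have hsq : ∀ a d : ℝ, 0 ≤ a → a ≤ d → a / d * (a * d) = a ^ 2 := by
    intro a d h0 h1
    rcases eq_or_ne d 0 with h | h
    · have : a = 0 := le_antisymm (h ▸ h1) h0
      rw [this, h]
      simp
    · field_simp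
  have hcs := Finset.sum_sq_le_sum_mul_sum_of_sq_le_mul P (r := fun p => m p.1 * m p.2) (f := f)
    (g := g) (fun p _ => hf0 p) (fun p _ => hg0 p) (by
      intro p hp
      have hp1 := Finset.mem_filter.1 hp
      have hp2 := Finset.mem_product.1 hp1.1
      have hne := hp1.2
      have n1 : p.1.Nonempty := hne.mono Finset.inter_subset_left
      have n2 : p.2.Nonempty := hne.mono Finset.inter_subset_right
      have e1 := hsq _ _ (hm p.1) (le_dg_self m hm U hp2.1 n1)
      have e2 := hsq _ _ (hm p.2) (le_dg_self m hm L hp2.2 n2)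
      show (m p.1 * m p.2) ^ 2 ≤ (m p.1 / dg m U p.1) * (m p.2 / dg m L p.2) *
        ((m p.1 * dg m U p.1) * (m p.2 * dg m L p.2))
      refine le_of_eq ?_
      calc (m p.1 * m p.2) ^ 2 = m p.1 ^ 2 * m p.2 ^ 2 := by ring
        _ = (m p.1 / dg m U p.1 * (m p.1 * dg m U p.1)) *
            (m p.2 / dg m L p.2 * (m p.2 * dg m L p.2)) := by rw [e1, e2]
        _ = _ := by ring)
  rw [← haj] at hcs
  have hF : ∑ p ∈ P, f p ≤ k := by
    have h1 : ∑ p ∈ P, f p ≤ ∑ p ∈ U ×ˢ L, ∑ i : Fin k,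
        (if i ∈ p.1 then m p.1 / dg m U p.1 else 0) *
          (if i ∈ p.2 then m p.2 / dg m L p.2 else 0) := by
      rw [Finset.sum_filter]
      refine Finset.sum_le_sum fun p _ => ?_
      have h0 : ∀ i : Fin k, 0 ≤ (if i ∈ p.1 then m p.1 / dg m U p.1 else 0) *
          (if i ∈ p.2 then m p.2 / dg m L p.2 else 0) := by
        intro i
        have a1 : 0 ≤ m p.1 / dg m U p.1 := div_nonneg (hm _) (hdU _)
        have a2 : 0 ≤ m p.2 / dg m L p.2 := div_nonneg (hm _) (hdL _)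
        apply mul_nonneg
        · split_ifs
          · exact a1
          · exact le_rfl
        · split_ifs
          · exact a2
          · exact le_rfl
      by_cases hne : (p.1 ∩ p.2).Nonempty
      · rw [if_pos hne]
        obtain ⟨i, hi⟩ := hne
        rw [Finset.mem_inter] at hi
        have h2 := Finset.single_le_sum (f := fun i : Fin k =>
          (if i ∈ p.1 then m p.1 / dg m U p.1 else 0) *
          (if i ∈ p.2 then m p.2 / dg m L p.2 else 0)) (fun i _ => h0 i) (Finset.mem_univ i)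
        simp only [if_pos hi.1, if_pos hi.2] at h2
        exact h2
      · rw [if_neg hne]
        exact Finset.sum_nonneg fun i _ => h0 i
    refine h1.trans ?_
    rw [Finset.sum_comm]
    have h3 : ∀ i : Fin k, ∑ p ∈ U ×ˢ L, (if i ∈ p.1 then m p.1 / dg m U p.1 else 0) *
        (if i ∈ p.2 then m p.2 / dg m L p.2 else 0) ≤ 1 := by
      intro i
      rw [Finset.sum_product]
      have h4 : ∑ A ∈ U, ∑ B ∈ L, (if i ∈ A then m A / dg m U A else 0) *
          (if i ∈ B then m B / dg m L B else 0) =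
          (∑ A ∈ U, if i ∈ A then m A / dg m U A else 0) *
            ∑ B ∈ L, if i ∈ B then m B / dg m L B else 0 := by
        rw [Finset.sum_mul_sum]
      rw [h4]
      have a1 := cover_one m hm U i
      have a2 := cover_one m hm L i
      have b2 : 0 ≤ ∑ B ∈ L, if i ∈ B then m B / dg m L B else 0 := by
        refine Finset.sum_nonneg fun B _ => ?_
        split_ifs
        · exact div_nonneg (hm _) (hdL _)
        · exact le_rfl
      exact mul_le_one₀ a1 b2 a2
    calc ∑ i : Fin k, ∑ p ∈ U ×ˢ L, (if i ∈ p.1 then m p.1 / dg m U p.1 else 0) *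
        (if i ∈ p.2 then m p.2 / dg m L p.2 else 0) ≤ ∑ _i : Fin k, (1 : ℝ) :=
          Finset.sum_le_sum fun i _ => h3 i
      _ = k := by simp
  have hG : ∑ p ∈ P, g p ≤ ad m U * ad m L := by
    have h1 : ∑ p ∈ P, g p ≤ ∑ p ∈ U ×ˢ L, g p :=
      Finset.sum_le_sum_of_subset_of_nonneg (Finset.filter_subset _ _) fun p _ _ => hg0 p
    refine h1.trans (le_of_eq ?_)
    unfold ad
    rw [Finset.sum_product, Finset.sum_mul_sum]
  have hG0 : 0 ≤ ∑ p ∈ P, g p := Finset.sum_nonneg fun p _ => hg0 p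
  calc aj m U L ^ 2 ≤ (∑ p ∈ P, f p) * ∑ p ∈ P, g p := hcs
    _ ≤ k * ∑ p ∈ P, g p := mul_le_mul_of_nonneg_right hF hG0
    _ ≤ k * (ad m U * ad m L) := mul_le_mul_of_nonneg_left hG (Nat.cast_nonneg _)

end Pool.Agent.H99.LK
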