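import Mathlib
import Pool.Agent.H99.LK.Defs

/-!
# The covering inequality: proof
-/

open Finset

namespace Pool.Agent.H99.LK

variable {k : ℕ}

theorem dg_nonnegS (m : Finset (Fin k) → ℝ) (hm : ∀ A, 0 ≤ m A) (U : Finset (Finset (Fin k)))
    (A : Finset (Fin k)) : 0 ≤ dg m U A := by
  unfold dg
  refine Finset.sum_nonneg fun B _ => ?_
  split_ifs
  · exact hm B
  · exact le_rfl

theorem cover_one (m : Finset (Fin k) → ℝ) (hm : ∀ A, 0 ≤ m A) (U : Finset (Finset (Fin k)))
    (i : Fin k) : ∑ A ∈ U.filter (fun A => i ∈ A), m A / dg m U A ≤ 1 := by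
  set α := ∑ A ∈ U.filter (fun A => i ∈ A), m A with hα
  have hα0 : 0 ≤ α := Finset.sum_nonneg fun A _ => hm A
  have h1 : ∀ A ∈ U.filter (fun A => i ∈ A), α ≤ dg m U A := by
    intro A hA
    rw [Finset.mem_filter] at hA
    rw [hα, Finset.sum_filter]
    unfold dg
    refine Finset.sum_le_sum fun B _ => ?_
    by_cases h : i ∈ B
    · rw [if_pos h, if_pos ⟨i, Finset.mem_inter.2 ⟨hA.2, h⟩⟩]
    · rw [if_neg h]
      split_ifs
      · exact hm B
      · exact le_rfl
  rcases hα0.eq_or_lt with h0 | h0
  · have h2 : ∀ A ∈ U.filter (fun A => i ∈ A), m A = 0 :=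
      (Finset.sum_eq_zero_iff_of_nonneg fun A _ => hm A).1 h0.symm
    rw [Finset.sum_eq_zero fun A hA => by rw [h2 A hA, zero_div]]
    exact zero_le_one
  · calc ∑ A ∈ U.filter (fun A => i ∈ A), m A / dg m U A
        ≤ ∑ A ∈ U.filter (fun A => i ∈ A), m A / α :=
          Finset.sum_le_sum fun A hA => div_le_div_of_nonneg_left (hm A) h0 (h1 A hA)
      _ = 1 := by rw [← Finset.sum_div, ← hα, div_self h0.ne']

theorem coverS (m : Finset (Fin k) → ℝ) (hm : ∀ A, 0 ≤ m A) (U L : Finset (Finset (Fin k))) :
    aj m U L ^ 2 ≤ k * (ad m U * ad m L) := by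
  classical
  set T := (U ×ˢ L).filter (fun p : Finset (Fin k) × Finset (Fin k) => (p.1 ∩ p.2).Nonempty)
    with hT
  have e1 : aj m U L = ∑ p ∈ T, m p.1 * m p.2 := by
    rw [hT, Finset.sum_filter, Finset.sum_product]
    rfl
  have hCS := Finset.sum_sq_le_sum_mul_sum_of_sq_eq_mul T
    (r := fun p => m p.1 * m p.2)
    (f := fun p => (m p.1 / dg m U p.1) * (m p.2 / dg m L p.2))
    (g := fun p => (m p.1 * dg m U p.1) * (m p.2 * dg m L p.2))
    (fun p _ => mul_nonneg (div_nonneg (hm _) (dg_nonnegS m hm U _))
      (div_nonneg (hm _) (dg_nonnegS m hm L _)))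
    (fun p _ => mul_nonneg (mul_nonneg (hm _) (dg_nonnegS m hm U _))
      (mul_nonneg (hm _) (dg_nonnegS m hm L _)))
    (by
      intro p hp
      rw [hT, Finset.mem_filter, Finset.mem_product] at hp
      obtain ⟨⟨hpU, hpL⟩, hne⟩ := hp
      have key : ∀ (V : Finset (Finset (Fin k))) (A : Finset (Fin k)), A ∈ V → A.Nonempty →
          m A ^ 2 = (m A / dg m V A) * (m A * dg m V A) := by
        intro V A hA hne
        have h1 : m A ≤ dg m V A := by
          unfold dg
          have h2 := Finset.single_le_sum (f := fun B => if (A ∩ B).Nonempty then m B else 0)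
            (s := V) (fun B _ => by
              show 0 ≤ if (A ∩ B).Nonempty then m B else 0
              split_ifs
              · exact hm B
              · exact le_rfl) hA
          simp only [Finset.inter_self, if_pos hne] at h2
          exact h2
        by_cases h0 : dg m V A = 0
        · have h3 : m A = 0 := le_antisymm (by rw [h0] at h1; exact h1) (hm A)
          rw [h3]; simp
        · field_simp
      have k1 := key U p.1 hpU (hne.mono Finset.inter_subset_left)
      have k2 := key L p.2 hpL (hne.mono Finset.inter_subset_right)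
      show (m p.1 * m p.2) ^ 2 = _
      rw [mul_pow, k1, k2]
      ring)
  rw [e1]
  refine hCS.trans ?_
  apply mul_le_mul _ _ (Finset.sum_nonneg fun p _ => mul_nonneg
    (mul_nonneg (hm _) (dg_nonnegS m hm U _)) (mul_nonneg (hm _) (dg_nonnegS m hm L _)))
    (Nat.cast_nonneg k)
  · -- the sum of `f`
    calc ∑ p ∈ T, (m p.1 / dg m U p.1) * (m p.2 / dg m L p.2)
        ≤ ∑ p ∈ T, ∑ i : Fin k, (if i ∈ p.1 then m p.1 / dg m U p.1 else 0) *
            (if i ∈ p.2 then m p.2 / dg m L p.2 else 0) := by
          refine Finset.sum_le_sum fun p hp => ?_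
          rw [hT, Finset.mem_filter] at hp
          obtain ⟨i, hi⟩ := hp.2
          rw [Finset.mem_inter] at hi
          have h2 := Finset.single_le_sum (f := fun i => (if i ∈ p.1 then m p.1 / dg m U p.1 else 0) *
            (if i ∈ p.2 then m p.2 / dg m L p.2 else 0)) (s := univ) (fun j _ => by
              show 0 ≤ (if j ∈ p.1 then m p.1 / dg m U p.1 else 0) *
                (if j ∈ p.2 then m p.2 / dg m L p.2 else 0)
              apply mul_nonneg
              · split_ifs
                · exact div_nonneg (hm _) (dg_nonnegS m hm U _)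
                · exact le_rfl
              · split_ifs
                · exact div_nonneg (hm _) (dg_nonnegS m hm L _)
                · exact le_rfl) (Finset.mem_univ i)
          simp only [if_pos hi.1, if_pos hi.2] at h2
          exact h2
      _ ≤ ∑ p ∈ U ×ˢ L, ∑ i : Fin k, (if i ∈ p.1 then m p.1 / dg m U p.1 else 0) *
            (if i ∈ p.2 then m p.2 / dg m L p.2 else 0) := by
          apply Finset.sum_le_sum_of_subset_of_nonneg (Finset.filter_subset _ _)
          intro p _ _
          refine Finset.sum_nonneg fun j _ => ?_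
          apply mul_nonneg
          · split_ifs
            · exact div_nonneg (hm _) (dg_nonnegS m hm U _)
            · exact le_rfl
          · split_ifs
            · exact div_nonneg (hm _) (dg_nonnegS m hm L _)
            · exact le_rfl
      _ = ∑ i : Fin k, (∑ A ∈ U.filter (fun A => i ∈ A), m A / dg m U A) *
            (∑ B ∈ L.filter (fun B => i ∈ B), m B / dg m L B) := by
          rw [Finset.sum_comm]
          refine Finset.sum_congr rfl fun i _ => ?_
          rw [Finset.sum_filter, Finset.sum_filter, Finset.sum_mul_sum, Finset.sum_product]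
      _ ≤ ∑ i : Fin k, (1 : ℝ) := by
          refine Finset.sum_le_sum fun i _ => ?_
          have h1 := cover_one m hm U i
          have h2 := cover_one m hm L i
          have h3 : 0 ≤ ∑ A ∈ U.filter (fun A => i ∈ A), m A / dg m U A :=
            Finset.sum_nonneg fun A _ => div_nonneg (hm _) (dg_nonnegS m hm U _)
          have h4 : 0 ≤ ∑ A ∈ L.filter (fun A => i ∈ A), m A / dg m L A :=
            Finset.sum_nonneg fun A _ => div_nonneg (hm _) (dg_nonnegS m hm L _)
          nlinarith
      _ = k := by simp
  · -- the sum of `g`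
    calc ∑ p ∈ T, (m p.1 * dg m U p.1) * (m p.2 * dg m L p.2)
        ≤ ∑ p ∈ U ×ˢ L, (m p.1 * dg m U p.1) * (m p.2 * dg m L p.2) := by
          apply Finset.sum_le_sum_of_subset_of_nonneg (Finset.filter_subset _ _)
          intro p _ _
          exact mul_nonneg (mul_nonneg (hm _) (dg_nonnegS m hm U _))
            (mul_nonneg (hm _) (dg_nonnegS m hm L _))
      _ = ad m U * ad m L := by
          unfold ad
          rw [Finset.sum_mul_sum, Finset.sum_product]

end Pool.Agent.H99.LK
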