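import Mathlib
import Pool.Agent.H99.LK.Defs

/-!
# A heavy pair of large degree

All masses have total `1`; sums are over ordered pairs.  `P = pos Y = max Y 0`,
`W = min 1 (2 P)`, `∑∑ W m m ≤ 1/2` (`TMK.ms`).  `W - P ≥ 0` (`TMK.le_one`);
`1/2 - κ < qf Y m ≤ ∑∑ P m m = ∑∑ W m m - ∑∑ (W - P) m m`, so `∑∑ (W - P) m m ≤ κ`.
With `H A B = 1` if `1/2 < Y A B` and `0` otherwise, `P ≤ H + (W - P)` pointwise, so
`h := ∑∑ H m m ≥ 1/2 - 2κ`.  Let `D A = ∑ B ∈ hn Y A, m B`.  Then
`∑∑ H m m (D A + D B) = 2 ∑ m A (D A)² ≥ 2 (∑ m A D A)² = 2 h²` (Cauchy-Schwarz, `∑ m = 1`), so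
some pair with `H A B = 1` has `D A + D B ≥ 2 h ≥ 1 - 4κ`.
-/

open Finset

namespace Pool.Agent.H99.LK

open Pool.Agent.H69.CPR Pool.Agent.H99.CP

variable {k : ℕ} {Y : Finset (Fin k) → Finset (Fin k) → ℝ} {m : Finset (Fin k) → ℝ}

open Classical in
/-- heavy neighbours -/
noncomputable def hn (Y : Finset (Fin k) → Finset (Fin k) → ℝ) (A : Finset (Fin k)) :
    Finset (Finset (Fin k)) := univ.filter fun B => 1 / 2 < Y A B

theorem edge_sum_hn (f : Finset (Fin k) → ℝ) (A : Finset (Fin k)) :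
    ∑ B ∈ hn Y A, f B = ∑ B, gr Y A B * f B := by
  classical
  unfold hn gr
  rw [Finset.sum_filter]
  refine Finset.sum_congr rfl fun B _ => ?_
  split_ifs <;> simp

theorem edge (hY : TMK Y) (hm : ∀ A, 0 ≤ m A) (hs : ∑ A, m A = 1) {κ : ℝ} (hκ : 0 < κ)
    (hκ1 : κ ≤ 1 / 8) (hq : 1 / 2 - κ < qf Y m) :
    ∃ A0 B0, 1 / 2 < Y A0 B0 ∧
      1 - 4 * κ ≤ (∑ B ∈ hn Y A0, m B) + (∑ A ∈ hn Y B0, m A) ∧
      1 / 2 - 2 * κ ≤ ∑ A, ∑ B ∈ hn Y A, m A * m B := by
  classical
  have hW := hY.ms m hm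
  rw [hs] at hW
  have h1 : qf Y m ≤ qf (pos Y) m := qf_mono _ _ m hm fun A B => le_max_left _ _
  have h2 : qf (fun A B => 2 * pos Y A B + (-1) * min 1 (2 * pos Y A B)) m ≤ qf (gr Y) m := by
    refine qf_mono _ _ m hm fun A B => ?_
    have hle := hY.le_one A B
    have hp1 : pos Y A B ≤ 1 := max_le hle zero_le_one
    unfold gr
    split_ifs with h
    · have hp : pos Y A B = Y A B := max_eq_left (by linarith)
      rw [min_eq_left (by rw [hp]; linarith)]
      linarith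
    · push Not at h
      have hp : pos Y A B ≤ 1 / 2 := max_le h (by norm_num)
      rw [min_eq_right (by linarith)]
      linarith
  rw [qf_lin (pos Y) (fun A B => min 1 (2 * pos Y A B)) 2 (-1) m] at h2
  set h := qf (gr Y) m with hdef
  have hh : 1 / 2 - 2 * κ < h := by
    norm_num at hW
    linarith
  have hsum : ∑ A, ∑ B ∈ hn Y A, m A * m B = h := by
    rw [hdef]
    unfold qf
    refine Finset.sum_congr rfl fun A _ => ?_
    rw [edge_sum_hn]
  set D : Finset (Fin k) → ℝ := fun A => ∑ B, gr Y A B * m B with hD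
  have hDn : ∀ A, ∑ B ∈ hn Y A, m B = D A := fun A => edge_sum_hn _ _
  have hgs : ∀ A B, gr Y A B = gr Y B A := by
    intro A B
    unfold gr
    rw [hY.sym]
  have hmD : ∑ A, m A * D A = h := by
    rw [hdef]
    unfold qf
    refine Finset.sum_congr rfl fun A _ => ?_
    rw [hD]
    simp only
    rw [Finset.mul_sum]
    exact Finset.sum_congr rfl fun B _ => by ring
  -- Cauchy-Schwarz
  have hcs : h ^ 2 ≤ ∑ A, m A * D A ^ 2 := by
    have h0 : 0 ≤ ∑ A, m A * (D A - h) ^ 2 :=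
      Finset.sum_nonneg fun A _ => mul_nonneg (hm A) (sq_nonneg _)
    have h3 : ∑ A, m A * (D A - h) ^ 2
        = ∑ A, m A * D A ^ 2 - 2 * h * ∑ A, m A * D A + h ^ 2 * ∑ A, m A := by
      rw [Finset.mul_sum, Finset.mul_sum, ← Finset.sum_sub_distrib, ← Finset.sum_add_distrib]
      exact Finset.sum_congr rfl fun A _ => by ring
    rw [h3, hmD, hs] at h0
    nlinarith
  have hA : ∑ A, ∑ B, gr Y A B * (m A * m B) * D A = ∑ A, m A * D A ^ 2 := by
    refine Finset.sum_congr rfl fun A _ => ?_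
    have h3 : m A * D A ^ 2 = m A * D A * ∑ B, gr Y A B * m B := by
      have : D A = ∑ B, gr Y A B * m B := rfl
      rw [← this]; ring
    rw [h3, Finset.mul_sum]
    exact Finset.sum_congr rfl fun B _ => by ring
  have hB : ∑ A, ∑ B, gr Y A B * (m A * m B) * D B = ∑ A, m A * D A ^ 2 := by
    rw [← hA, Finset.sum_comm]
    refine Finset.sum_congr rfl fun A _ => Finset.sum_congr rfl fun B _ => ?_
    rw [hgs B A]
    ring
  by_contra hcon
  push Not at hcon
  have hlt : ∀ A B, 1 / 2 < Y A B → D A + D B < 1 - 4 * κ := by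
    intro A B hAB
    by_contra hc
    push Not at hc
    have h4 := hcon A B hAB (by rw [hDn, hDn]; exact hc)
    rw [hsum] at h4
    linarith
  have hub : ∑ A, ∑ B, (gr Y A B * (m A * m B) * D A + gr Y A B * (m A * m B) * D B)
      ≤ (1 - 4 * κ) * h := by
    rw [hdef]
    unfold qf
    rw [Finset.mul_sum]
    refine Finset.sum_le_sum fun A _ => ?_
    rw [Finset.mul_sum]
    refine Finset.sum_le_sum fun B _ => ?_
    by_cases hAB : 1 / 2 < Y A B
    · have h5 := hlt A B hAB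
      have h6 : gr Y A B = 1 := by unfold gr; rw [if_pos hAB]
      rw [h6]
      have h7 : 0 ≤ m A * m B := mul_nonneg (hm A) (hm B)
      nlinarith
    · have h6 : gr Y A B = 0 := by unfold gr; rw [if_neg hAB]
      rw [h6]
      simp
  simp only [Finset.sum_add_distrib] at hub
  rw [hA, hB] at hub
  have hpos : 0 < h := by linarith
  nlinarith

end Pool.Agent.H99.LK
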