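import Mathlib
import Pool.Agent.H29.CPR.Main

/-!
# Independent edges

`k` edges, no two of which lie in a common clique, need `k` cliques in every clique cover.
-/

open Finset

namespace Pool.Agent.H99.LK

open Pool.Agent.H22.F10f644 Pool.Agent.H29.CPR

theorem indep {n k : ℕ} (G : SimpleGraph (Fin n)) (p q : Fin k → Fin n)
    (hadj : ∀ i, G.Adj (p i) (q i))
    (hind : ∀ i j, i ≠ j → (p i ≠ p j ∧ ¬ G.Adj (p i) (p j)) ∨ (q i ≠ q j ∧ ¬ G.Adj (q i) (q j))) :
    k ≤ cc G := by
  classical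
  obtain ⟨F, ⟨hF1, hF2⟩, hF3⟩ := cc_spec G
  choose S hS hpS hqS using fun i => hF2 (p i) (q i) (hadj i)
  have hinj : Function.Injective S := by
    intro i j hij
    by_contra hne
    rcases hind i j hne with ⟨h1, h2⟩ | ⟨h1, h2⟩
    · exact h2 ((hF1 (S i) (hS i)).2 (p i) (hpS i) (p j) (hij ▸ hpS j) h1)
    · exact h2 ((hF1 (S i) (hS i)).2 (q i) (hqS i) (q j) (hij ▸ hqS j) h1)
  have hcard : (univ.image S).card = k := by
    rw [Finset.card_image_of_injective _ hinj, Finset.card_univ, Fintype.card_fin]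
  rw [← hF3, ← hcard]
  apply Finset.card_le_card
  intro T hT
  obtain ⟨i, -, rfl⟩ := Finset.mem_image.1 hT
  exact hS i

end Pool.Agent.H99.LK
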