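import Mathlib

/-!
# Markov and the final estimate in numbers

`num`.  From `0 ≤ (P - c A)(Q - c B)` with `c = 1 - ε/8`:
`P Q ≥ c (P B + Q A) - c² A B ≥ c (3 A B - 8 K² κ³) - c² A B`.  `a ≥ (1 - ε/8)/4` (the subtracted
terms are at most `6κ + 80κ/ε + ε/64 ≤ ε/32`), in particular `a ≥ 1/5`, so
`8 K² κ³ ≤ 100 K² κ * (A B) ≤ (ε/4) A B` (`A B ≥ 2 κ²/25`, `K² κ ≤ 65536 ε / 10⁸`).  Hence
`P Q ≥ A B c (3 - ε/4 - c) ≥ A B (1 - ε/8)(2 - ε/8) ` and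
`(P + Q)² ≥ 4 P Q ≥ 8 κ² a² (1 - ε/8)(2 - ε/8) ≥ κ² (1 - ε/8)³ (1 - ε/16) ≥ κ² (1 - ε/2)²`.
-/

open Finset

namespace Pool.Agent.H99.LK

/-- Markov: the mass of the members with `f > t` -/
theorem trunc {ι : Type} (U : Finset ι) (m f : ι → ℝ) (hm : ∀ a ∈ U, 0 ≤ m a)
    (hf : ∀ a ∈ U, 0 ≤ f a) {t : ℝ} (ht : 0 < t) [DecidablePred fun a => f a ≤ t] :
    ∑ a ∈ U, m a - (∑ a ∈ U, m a * f a) / t ≤ ∑ a ∈ U.filter (fun a => f a ≤ t), m a := by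
  rw [Finset.sum_div, ← Finset.sum_sub_distrib, Finset.sum_filter]
  refine Finset.sum_le_sum fun a ha => ?_
  have h1 := hm a ha
  have h2 := hf a ha
  by_cases h : f a ≤ t
  · rw [if_pos h]
    have h3 : 0 ≤ m a * f a / t := div_nonneg (mul_nonneg h1 h2) ht.le
    linarith
  · rw [if_neg h]
    push Not at h
    have h3 : m a ≤ m a * f a / t := by
      rw [le_div_iff₀ ht]
      exact mul_le_mul_of_nonneg_left h.le h1
    linarith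

private theorem num_c {ε : ℝ} (hε : 0 < ε) (hε1 : ε ≤ 1) :
    (1 - ε / 2) ^ 2 ≤ (1 - ε / 8) ^ 3 * (1 - ε / 16) := by
  have h0 : 0 ≤ ε * (1 - ε) := mul_nonneg hε.le (sub_nonneg.2 hε1)
  have h6 : 1 - 3 * ε / 8 ≤ (1 - ε / 8) ^ 3 := by
    have : (1 - ε / 8) ^ 3 = 1 - 3 * ε / 8 + ε ^ 2 * (24 - ε) / 512 := by ring
    rw [this]
    have : 0 ≤ ε ^ 2 * (24 - ε) := mul_nonneg (sq_nonneg ε) (by linarith)
    linarith
  have h7 : (1 - 3 * ε / 8) * (1 - ε / 16) ≤ (1 - ε / 8) ^ 3 * (1 - ε / 16) :=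
    mul_le_mul_of_nonneg_right h6 (by linarith)
  refine le_trans ?_ h7
  have h8 : (1 - 3 * ε / 8) * (1 - ε / 16) - (1 - ε / 2) ^ 2 =
      29 / 128 * (ε * (1 - ε)) + 43 / 128 * ε := by ring
  linarith

private theorem num_sq {P Q Y : ℝ} (hPQ : 0 ≤ P + Q) (h : Y ^ 2 ≤ 4 * (P * Q)) : Y ≤ P + Q := by
  have h5 : Y ^ 2 ≤ (P + Q) ^ 2 := by
    have : (P + Q) ^ 2 = (P - Q) ^ 2 + 4 * (P * Q) := by ring
    have h6 := sq_nonneg (P - Q)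
    linarith
  exact le_of_sq_le_sq h5 hPQ

private theorem num_k {ε κ : ℝ} (hε : 0 < ε) (hε1 : ε ≤ 1) (hκ0 : κ ≤ ε ^ 3 / 10 ^ 8) :
    6 * κ ≤ ε / 1000 ∧ κ / (ε / 80) ≤ ε / 1000 ∧ (256 / ε) ^ 2 * κ ≤ ε / 1000 := by
  have h2 : ε ^ 2 ≤ ε := by nlinarith
  have h3 : ε ^ 3 ≤ ε ^ 2 := by nlinarith [sq_nonneg ε]
  have hk2 : κ ≤ ε ^ 2 / 10 ^ 8 := hκ0.trans (by
    apply div_le_div_of_nonneg_right h3
    norm_num)
  refine ⟨?_, ?_, ?_⟩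
  · have : ε ^ 2 / 10 ^ 8 ≤ ε / 10 ^ 8 := by
      apply div_le_div_of_nonneg_right h2
      norm_num
    linarith
  · rw [div_le_iff₀ (by positivity)]
    nlinarith [sq_nonneg ε]
  · have h1 : (256 / ε) ^ 2 * κ ≤ (256 / ε) ^ 2 * (ε ^ 3 / 10 ^ 8) :=
      mul_le_mul_of_nonneg_left hκ0 (by positivity)
    have h4 : (256 / ε) ^ 2 * (ε ^ 3 / 10 ^ 8) = 256 ^ 2 / 10 ^ 8 * ε := by
      field_simp
    rw [h4] at h1
    refine h1.trans ?_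
    norm_num
    linarith

theorem num {ε κ K a A B P Q : ℝ} (hε : 0 < ε) (hε1 : ε ≤ 1) (hκ : 0 < κ)
    (hκ0 : κ ≤ ε ^ 3 / 10 ^ 8) (hK : K = 256 / ε)
    (ha : 1 / 4 - 6 * κ - κ / (ε / 80) - 4 / K ≤ a)
    (hA : 0 ≤ A) (hB : 0 ≤ B) (hAB : 2 * κ ^ 2 * a ^ 2 ≤ A * B)
    (hP : (1 - ε / 8) * A ≤ P) (hQ : (1 - ε / 8) * B ≤ Q)
    (hPQ : 3 * (A * B) - 8 * (K * κ) ^ 2 * κ ≤ P * B + Q * A) :
    (1 - ε / 2) * κ ≤ P + Q := by
  obtain ⟨h6, h80, hKκ'⟩ := num_k hε hε1 hκ0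
  set c : ℝ := 1 - ε / 8 with hc
  have hc0 : 0 < c := by rw [hc]; linarith
  set X : ℝ := A * B with hX
  have hX0 : 0 ≤ X := mul_nonneg hA hB
  -- the bound for a
  have hK4 : 4 / K = ε / 64 := by
    rw [hK]
    field_simp
    norm_num
  have ha1 : c / 4 ≤ a := by
    rw [hK4] at ha
    rw [hc]
    linarith
  have ha2 : 1 / 5 ≤ a := by
    rw [hc] at ha1
    linarith
  -- the error term
  have hKκ : K ^ 2 * κ ≤ ε / 1000 := by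
    rw [hK]
    exact hKκ'
  have hκX : κ ^ 2 ≤ 25 / 2 * X := by
    have h1 : (1 / 5 : ℝ) ^ 2 ≤ a ^ 2 := pow_le_pow_left₀ (by norm_num) ha2 2
    have h2 : 0 ≤ κ ^ 2 := sq_nonneg κ
    nlinarith
  have herr : 8 * (K * κ) ^ 2 * κ ≤ ε / 4 * X := by
    have h1 : 8 * (K * κ) ^ 2 * κ = 8 * (K ^ 2 * κ) * κ ^ 2 := by ring
    rw [h1]
    have h2 : 8 * (K ^ 2 * κ) * κ ^ 2 ≤ 8 * (ε / 1000) * (25 / 2 * X) := by
      apply mul_le_mul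
      · linarith
      · exact hκX
      · exact sq_nonneg κ
      · positivity
    refine h2.trans ?_
    nlinarith [mul_nonneg hε.le hX0]
  -- the product
  have hprod : 0 ≤ (P - c * A) * (Q - c * B) :=
    mul_nonneg (by linarith) (by linarith)
  have h1 : c * (3 * X - ε / 4 * X) - c ^ 2 * X ≤ P * Q := by
    have h2 : c * (3 * X - ε / 4 * X) ≤ c * (P * B + Q * A) :=
      mul_le_mul_of_nonneg_left (by linarith) hc0.le
    have h3 : (P - c * A) * (Q - c * B) = P * Q - c * (P * B + Q * A) + c ^ 2 * X := by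
      rw [hX]
      ring
    rw [h3] at hprod
    linarith
  have h2 : c * (2 - ε / 8) * X ≤ P * Q := by
    have h3 : c * (3 * X - ε / 4 * X) - c ^ 2 * X = c * (2 - ε / 8) * X := by
      rw [hc]
      ring
    linarith
  have hXl : 2 * κ ^ 2 * (c / 4) ^ 2 ≤ X := by
    have h3 : (c / 4) ^ 2 ≤ a ^ 2 := pow_le_pow_left₀ (by positivity) ha1 2
    have h4 : 2 * κ ^ 2 * (c / 4) ^ 2 ≤ 2 * κ ^ 2 * a ^ 2 :=
      mul_le_mul_of_nonneg_left h3 (by positivity)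
    linarith
  have h3 : c * (2 - ε / 8) * (2 * κ ^ 2 * (c / 4) ^ 2) ≤ P * Q :=
    (mul_le_mul_of_nonneg_left hXl (mul_nonneg hc0.le (by linarith))).trans h2
  have h4 : ((1 - ε / 2) * κ) ^ 2 ≤ 4 * (P * Q) := by
    have h5 := num_c hε hε1
    rw [← hc] at h5
    have h8 : ((1 - ε / 2) * κ) ^ 2 ≤ c ^ 3 * (1 - ε / 16) * κ ^ 2 := by
      rw [mul_pow]
      exact mul_le_mul_of_nonneg_right h5 (sq_nonneg κ)
    have h9 : 4 * (c * (2 - ε / 8) * (2 * κ ^ 2 * (c / 4) ^ 2)) = c ^ 3 * (1 - ε / 16) * κ ^ 2 := by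
      ring
    linarith
  refine num_sq ?_ h4
  have h5 : 0 ≤ c * A := mul_nonneg hc0.le hA
  have h6 : 0 ≤ c * B := mul_nonneg hc0.le hB
  linarith

end Pool.Agent.H99.LK
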