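import Mathlib
import Pool.Agent.H99.LK.Defs

/-!
# Triples and the truncated kernel

`W_triple`: if one of the three terms is `0` the sum is at most `2`.  Otherwise the three values of
`Y` are positive, so the types meet pairwise and `MK.three98` on the restriction of `Y` to
`{A, B, C}` gives `Y C A + Y C B + Y A B ≤ 1`.

`heavy_triple`: three types with `1/2 < Y` for two pairs: the third value is negative or the third
pair does not meet (`MK.three98` again; note that `1/2 < Y` implies that the types meet).
-/

open Finset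

namespace Pool.Agent.H99.LK

open Pool.Agent.H69.CPR Pool.Agent.H99.CP

variable {k : ℕ} {Y : Finset (Fin k) → Finset (Fin k) → ℝ}

/-- types with a positive value meet -/
theorem meet_of_pos (hY : TMK Y) {A B : Finset (Fin k)} (h : 0 < Y A B) : (A ∩ B).Nonempty := by
  by_contra hcon
  rw [hY.adj A B hcon] at h
  exact lt_irrefl _ h

/-- the triple inequality for types which meet pairwise -/
theorem three_of_meet (hY : TMK Y) {A B C : Finset (Fin k)} (hAB : (A ∩ B).Nonempty)
    (hAC : (A ∩ C).Nonempty) (hBC : (B ∩ C).Nonempty) : Y A B + Y A C + Y B C ≤ 1 := by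
  classical
  have hAA : (A ∩ A).Nonempty := by
    rw [Finset.inter_self]; exact hAB.mono Finset.inter_subset_left
  have hBB : (B ∩ B).Nonempty := by
    rw [Finset.inter_self]; exact hAB.mono Finset.inter_subset_right
  have hCC : (C ∩ C).Nonempty := by
    rw [Finset.inter_self]; exact hAC.mono Finset.inter_subset_right
  have hBA : (B ∩ A).Nonempty := by rw [Finset.inter_comm]; exact hAB
  have hCA : (C ∩ A).Nonempty := by rw [Finset.inter_comm]; exact hAC
  have hCB : (C ∩ B).Nonempty := by rw [Finset.inter_comm]; exact hBC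
  have h1 := hY.restrict {A, B, C} (by
    intro E hE F hF
    simp only [Finset.mem_insert, Finset.mem_singleton] at hE hF
    rcases hE with rfl | rfl | rfl <;> rcases hF with rfl | rfl | rfl <;> assumption)
  exact h1.three98 ⟨A, by simp⟩ ⟨B, by simp⟩ ⟨C, by simp⟩

theorem W_triple (hY : TMK Y) (A B C : Finset (Fin k)) :
    min 1 (2 * pos Y C A) + min 1 (2 * pos Y C B) + min 1 (2 * pos Y A B) ≤ 2 := by
  have m1 : min 1 (2 * pos Y C A) ≤ 1 := min_le_left _ _
  have m2 : min 1 (2 * pos Y C B) ≤ 1 := min_le_left _ _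
  have m3 : min 1 (2 * pos Y A B) ≤ 1 := min_le_left _ _
  have hz : ∀ E F : Finset (Fin k), Y E F ≤ 0 → min 1 (2 * pos Y E F) ≤ 0 := by
    intro E F h
    have : pos Y E F = 0 := max_eq_right h
    rw [this]
    simp
  rcases le_or_gt (Y C A) 0 with h1 | h1
  · have := hz _ _ h1
    linarith
  rcases le_or_gt (Y C B) 0 with h2 | h2
  · have := hz _ _ h2
    linarith
  rcases le_or_gt (Y A B) 0 with h3 | h3
  · have := hz _ _ h3
    linarith
  have e1 : pos Y C A = Y C A := max_eq_left h1.le
  have e2 : pos Y C B = Y C B := max_eq_left h2.le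
  have e3 : pos Y A B = Y A B := max_eq_left h3.le
  have h := three_of_meet hY (meet_of_pos hY h1) (meet_of_pos hY h2) (meet_of_pos hY h3)
  rw [e1, e2, e3]
  have l1 : min 1 (2 * Y C A) ≤ 2 * Y C A := min_le_right _ _
  have l2 : min 1 (2 * Y C B) ≤ 2 * Y C B := min_le_right _ _
  have l3 : min 1 (2 * Y A B) ≤ 2 * Y A B := min_le_right _ _
  linarith

theorem heavy_triple (hY : TMK Y) {A A' B : Finset (Fin k)} (h : 1 / 2 < Y B A)
    (h' : 1 / 2 < Y B A') : Y A A' ≤ 0 := by
  by_cases hA : (A ∩ A').Nonempty
  · have g := three_of_meet hY (meet_of_pos hY (by linarith : 0 < Y B A))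
      (meet_of_pos hY (by linarith : 0 < Y B A')) hA
    linarith
  · rw [hY.adj A A' hA]

end Pool.Agent.H99.LK
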