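import Mathlib
import Pool.Agent.H99.LK.Edge
import Pool.Agent.H99.LK.WTri

/-!
# Near-extremal kernels are nearly complete bipartite: proof
-/

set_option linter.unusedSectionVars false

open Finset

namespace Pool.Agent.H99.LK.StructS

section gen

variable {ι : Type} [Fintype ι] [DecidableEq ι]

/-- block sum -/
noncomputable def bs (Z : ι → ι → ℝ) (m : ι → ℝ) (S T : Finset ι) : ℝ :=
  ∑ A ∈ S, ∑ B ∈ T, Z A B * (m A * m B)

theorem split3 {U L : Finset ι} (hd : Disjoint U L) (f : ι → ℝ) :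
    ∑ A, f A = ∑ A ∈ U, f A + ∑ A ∈ L, f A + ∑ A ∈ univ \ (U ∪ L), f A := by
  rw [← Finset.sum_union hd, add_comm, Finset.sum_sdiff (Finset.subset_univ _)]

theorem bs_comm {Z : ι → ι → ℝ} (hZ : ∀ a b, Z a b = Z b a) (m : ι → ℝ) (S T : Finset ι) :
    bs Z m S T = bs Z m T S := by
  unfold bs
  rw [Finset.sum_comm]
  refine Finset.sum_congr rfl fun a _ => Finset.sum_congr rfl fun b _ => ?_
  rw [hZ b a, mul_comm (m b)]

theorem bs_row (Z : ι → ι → ℝ) (m : ι → ℝ) (S T : Finset ι) :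
    bs Z m S T = ∑ A ∈ S, m A * ∑ B ∈ T, Z A B * m B := by
  unfold bs
  refine Finset.sum_congr rfl fun a _ => ?_
  rw [Finset.mul_sum]
  refine Finset.sum_congr rfl fun b _ => ?_
  ring

theorem bs_right (Z : ι → ι → ℝ) (m : ι → ℝ) (S : Finset ι) {U L : Finset ι}
    (hd : Disjoint U L) :
    bs Z m S univ = bs Z m S U + bs Z m S L + bs Z m S (univ \ (U ∪ L)) := by
  unfold bs
  rw [← Finset.sum_add_distrib, ← Finset.sum_add_distrib]
  refine Finset.sum_congr rfl fun a _ => ?_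
  exact split3 hd _

theorem bs_left (Z : ι → ι → ℝ) (m : ι → ℝ) (T : Finset ι) {U L : Finset ι}
    (hd : Disjoint U L) :
    bs Z m univ T = bs Z m U T + bs Z m L T + bs Z m (univ \ (U ∪ L)) T := by
  unfold bs
  exact split3 hd _

theorem bs_split {Z : ι → ι → ℝ} (hZ : ∀ a b, Z a b = Z b a) (m : ι → ℝ) {U L : Finset ι}
    (hd : Disjoint U L) :
    bs Z m univ univ = bs Z m U U + bs Z m L L + 2 * bs Z m U L
      + bs Z m (univ \ (U ∪ L)) univ
      + (bs Z m (univ \ (U ∪ L)) U + bs Z m (univ \ (U ∪ L)) L) := by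
  rw [bs_left Z m univ hd, bs_right Z m U hd, bs_right Z m L hd, bs_comm hZ m L U,
    bs_comm hZ m U (univ \ (U ∪ L)), bs_comm hZ m L (univ \ (U ∪ L))]
  ring

theorem bs_le_one {Z : ι → ι → ℝ} {m : ι → ℝ} (hm : ∀ a, 0 ≤ m a) {S T : Finset ι}
    (h : ∀ a ∈ S, ∀ b ∈ T, Z a b ≤ 1) :
    bs Z m S T ≤ (∑ a ∈ S, m a) * ∑ b ∈ T, m b := by
  unfold bs
  rw [Finset.sum_mul_sum]
  refine Finset.sum_le_sum fun a ha => Finset.sum_le_sum fun b hb => ?_
  have h1 := mul_nonneg (hm a) (hm b)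
  have h2 := h a ha b hb
  nlinarith

theorem bs_mono {Z Z' : ι → ι → ℝ} {m : ι → ℝ} (hm : ∀ a, 0 ≤ m a) {S T : Finset ι}
    (h : ∀ a ∈ S, ∀ b ∈ T, Z a b ≤ Z' a b) :
    bs Z m S T ≤ bs Z' m S T := by
  unfold bs
  refine Finset.sum_le_sum fun a ha => Finset.sum_le_sum fun b hb => ?_
  exact mul_le_mul_of_nonneg_right (h a ha b hb) (mul_nonneg (hm a) (hm b))

theorem bs_le_row {Z : ι → ι → ℝ} {m : ι → ℝ} (hm : ∀ a, 0 ≤ m a) {S T : Finset ι} {p : ℝ}
    (h : ∀ a ∈ S, ∑ b ∈ T, Z a b * m b ≤ p) :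
    bs Z m S T ≤ (∑ a ∈ S, m a) * p := by
  rw [bs_row, Finset.sum_mul]
  exact Finset.sum_le_sum fun a ha => mul_le_mul_of_nonneg_left (h a ha) (hm a)

/-- the numerical estimate for the degrees -/
theorem deg_num {u l SU SL κ : ℝ} (hu : 0 ≤ u) (hl : 0 ≤ l) (hul : u + l ≤ 1)
    (hκ : 0 < κ) (hκ1 : κ ≤ 1 / 1600) (hρ : 1 - 4 * κ ≤ u + l) (h1 : 1 / 4 - 5 * κ ≤ u * l)
    (hSU : 0 ≤ SU) (hSL : 0 ≤ SL) (h : SU * l + u * SL + (1 / 4 - 5 * κ) ≤ 2 * (u * l)) :
    SU + SL ≤ 1 / 2 + 4 * √κ - 4 * κ := by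
  set s := √κ with hs
  have hs2 : s ^ 2 = κ := Real.sq_sqrt hκ.le
  have hs0 : 0 < s := Real.sqrt_pos.2 hκ
  have hs1 : s ≤ 1 / 40 := by
    rw [hs, Real.sqrt_le_left (by norm_num)]
    linarith
  have h4 : u * l ≤ 1 / 4 := by nlinarith [sq_nonneg (u - l)]
  have hd : (u - l) ^ 2 ≤ 20 * s ^ 2 := by
    rw [hs2]
    nlinarith
  have hd1 : |u - l| ≤ 9 / 2 * s := by
    apply abs_le_of_sq_le_sq _ (by positivity)
    nlinarith
  obtain ⟨hd2, hd3⟩ := abs_le.1 hd1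
  -- the smaller side
  have key : ∀ w : ℝ, w ≤ u → w ≤ l → w = (1 - 4 * κ - 9 / 2 * s) / 2 →
      SU + SL ≤ 1 / 2 + 4 * s - 4 * κ := by
    intro w hw1 hw2 hw
    have hw0 : 0 < w := by
      rw [hw]
      nlinarith
    have h5 : w * (SU + SL) ≤ 1 / 4 + 5 * κ := by
      nlinarith
    by_contra hcon
    push Not at hcon
    have h6 : w * (1 / 2 + 4 * s - 4 * κ) < w * (SU + SL) := mul_lt_mul_of_pos_left hcon hw0
    have h7 : 1 / 4 + 5 * κ ≤ w * (1 / 2 + 4 * s - 4 * κ) := by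
      rw [hw, ← hs2]
      have : 0 ≤ s * (7 / 4 - 34 * s + 2 * s ^ 2 + 16 * s ^ 3) := by
        apply mul_nonneg hs0.le
        have h8 : 0 ≤ 2 * s ^ 2 + 16 * s ^ 3 := by positivity
        linarith
      nlinarith
    linarith
  exact key ((1 - 4 * κ - 9 / 2 * s) / 2) (by linarith) (by linarith) rfl

theorem core {Y : ι → ι → ℝ} (hsym : ∀ a b, Y a b = Y b a) (hle : ∀ a b, Y a b ≤ 1)
    {m : ι → ℝ} (hm : ∀ a, 0 ≤ m a) (hs : ∑ a, m a = 1) {U L : Finset ι} (hd : Disjoint U L)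
    (hU : ∀ a ∈ U, ∀ b ∈ U, Y a b ≤ 0) (hL : ∀ a ∈ L, ∀ b ∈ L, Y a b ≤ 0)
    (hW : ∀ a b c, min 1 (2 * max (Y c a) 0) + min 1 (2 * max (Y c b) 0)
      + min 1 (2 * max (Y a b) 0) ≤ 2)
    {κ : ℝ} (hκ : 0 < κ) (hκ1 : κ ≤ 1 / 1600)
    (hρ : 1 - 4 * κ ≤ (∑ a ∈ L, m a) + ∑ a ∈ U, m a)
    (hH : 1 / 2 - 2 * κ ≤ bs (fun a b => if 1 / 2 < Y a b then (1 : ℝ) else 0) m univ univ) :
    1 / 4 - 5 * κ ≤ (∑ a ∈ U, m a) * (∑ a ∈ L, m a) ∧
    bs Y m univ univ ≤ 1 / 2 - 2 * (∑ a ∈ U, ∑ b ∈ L, (1 - Y a b) * (m a * m b))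
      + bs Y m U U + bs Y m L L + 40 * κ * √κ := by
  set H : ι → ι → ℝ := fun a b => if 1 / 2 < Y a b then (1 : ℝ) else 0 with hHdef
  set W : ι → ι → ℝ := fun a b => min 1 (2 * max (Y a b) 0) with hWdef
  set R : Finset ι := univ \ (U ∪ L) with hR
  set u := ∑ a ∈ U, m a with hu
  set l := ∑ a ∈ L, m a with hl
  set ρ := ∑ a ∈ R, m a with hρdef
  have hu0 : 0 ≤ u := Finset.sum_nonneg fun a _ => hm a
  have hl0 : 0 ≤ l := Finset.sum_nonneg fun a _ => hm a
  have hρ0 : 0 ≤ ρ := Finset.sum_nonneg fun a _ => hm a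
  have hsum : u + l + ρ = 1 := by
    rw [← hs]
    exact (split3 hd m).symm
  have hul : u + l ≤ 1 := by linarith
  have hHs : ∀ a b, H a b = H b a := by
    intro a b
    simp only [hHdef]
    rw [hsym a b]
  have hH1 : ∀ a b, H a b ≤ 1 := by
    intro a b
    simp only [hHdef]
    split_ifs <;> norm_num
  have hHW : ∀ a b, H a b ≤ W a b := by
    intro a b
    simp only [hHdef, hWdef]
    split_ifs with h
    · apply le_min le_rfl
      have := le_max_left (Y a b) 0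
      linarith
    · apply le_min zero_le_one
      have := le_max_right (Y a b) 0
      linarith
  have hW0 : ∀ a b, 0 ≤ W a b := by
    intro a b
    simp only [hWdef]
    apply le_min zero_le_one
    have := le_max_right (Y a b) 0
    linarith
  have hYW : ∀ a b, Y a b ≤ W a b := by
    intro a b
    simp only [hWdef]
    apply le_min (hle a b)
    have h1 := le_max_left (Y a b) 0
    have h2 := le_max_right (Y a b) 0
    linarith
  -- (1)
  have hHU : bs H m U U = 0 := by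
    unfold bs
    refine Finset.sum_eq_zero fun a ha => Finset.sum_eq_zero fun b hb => ?_
    have h1 := hU a ha b hb
    simp only [hHdef]
    rw [if_neg (by linarith), zero_mul]
  have hHL : bs H m L L = 0 := by
    unfold bs
    refine Finset.sum_eq_zero fun a ha => Finset.sum_eq_zero fun b hb => ?_
    have h1 := hL a ha b hb
    simp only [hHdef]
    rw [if_neg (by linarith), zero_mul]
  have hHR : bs H m R univ ≤ ρ := by
    have := bs_le_one (Z := H) hm (S := R) (T := univ) (fun a _ b _ => hH1 a b)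
    rwa [hs, mul_one] at this
  have hHRU : bs H m R U ≤ ρ * u :=
    bs_le_one (Z := H) hm (S := R) (T := U) (fun a _ b _ => hH1 a b)
  have hHRL : bs H m R L ≤ ρ * l :=
    bs_le_one (Z := H) hm (S := R) (T := L) (fun a _ b _ => hH1 a b)
  have hHsplit := bs_split hHs m hd
  rw [← hR, hHU, hHL] at hHsplit
  have hHUL : 1 / 4 - 5 * κ ≤ bs H m U L := by
    have : ρ * u + ρ * l ≤ ρ := by nlinarith
    linarith
  have h1 : 1 / 4 - 5 * κ ≤ u * l :=
    hHUL.trans (bs_le_one (Z := H) hm (S := U) (T := L) (fun a _ b _ => hH1 a b))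
  refine ⟨h1, ?_⟩
  have hWUL : 1 / 4 - 5 * κ ≤ bs W m U L := hHUL.trans (bs_mono hm fun a _ b _ => hHW a b)
  -- (3)
  have hdeg : ∀ c, (∑ b ∈ U, W c b * m b) + (∑ b ∈ L, W c b * m b) ≤
      1 / 2 + 4 * √κ - 4 * κ := by
    intro c
    apply deg_num hu0 hl0 hul hκ hκ1 (by linarith) h1
      (Finset.sum_nonneg fun b _ => mul_nonneg (hW0 c b) (hm b))
      (Finset.sum_nonneg fun b _ => mul_nonneg (hW0 c b) (hm b))
    have e1 : (∑ b ∈ U, W c b * m b) * l + u * (∑ b ∈ L, W c b * m b) + bs W m U L =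
        ∑ a ∈ U, ∑ b ∈ L, (W c a + W c b + W a b) * (m a * m b) := by
      rw [hu, hl, Finset.sum_mul_sum, Finset.sum_mul_sum]
      unfold bs
      rw [← Finset.sum_add_distrib, ← Finset.sum_add_distrib]
      refine Finset.sum_congr rfl fun a _ => ?_
      rw [← Finset.sum_add_distrib, ← Finset.sum_add_distrib]
      refine Finset.sum_congr rfl fun b _ => ?_
      ring
    have e2 : ∑ a ∈ U, ∑ b ∈ L, (W c a + W c b + W a b) * (m a * m b) ≤ 2 * (u * l) := by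
      rw [hu, hl, Finset.sum_mul_sum, Finset.mul_sum]
      refine Finset.sum_le_sum fun a _ => ?_
      rw [Finset.mul_sum]
      refine Finset.sum_le_sum fun b _ => ?_
      exact mul_le_mul_of_nonneg_right (hW a b c) (mul_nonneg (hm a) (hm b))
    linarith
  have hρκ : ρ ≤ 4 * κ := by linarith
  have hs0 : 0 < √κ := Real.sqrt_pos.2 hκ
  have hdeg2 : ∀ c, (∑ b, Y c b * m b) ≤ 1 / 2 + 4 * √κ := by
    intro c
    have h2 : (∑ b, Y c b * m b) ≤ ∑ b, W c b * m b :=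
      Finset.sum_le_sum fun b _ => mul_le_mul_of_nonneg_right (hYW c b) (hm b)
    have h3 := split3 hd (fun b => W c b * m b)
    have h4 : ∑ b ∈ univ \ (U ∪ L), W c b * m b ≤ ρ := by
      rw [hρdef]
      refine Finset.sum_le_sum fun b _ => ?_
      have h5 : W c b ≤ 1 := min_le_left _ _
      have h6 := hm b
      nlinarith
    have h5 := hdeg c
    linarith
  have hYR : bs Y m R univ ≤ ρ * (1 / 2 + 4 * √κ) := bs_le_row hm fun c _ => hdeg2 c
  have hYR2 : bs Y m R U + bs Y m R L ≤ ρ * (1 / 2 + 4 * √κ) := by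
    have h2 : bs Y m R U + bs Y m R L = bs Y m R (U ∪ L) := by
      unfold bs
      rw [← Finset.sum_add_distrib]
      refine Finset.sum_congr rfl fun a _ => ?_
      rw [Finset.sum_union hd]
    rw [h2]
    apply bs_le_row hm
    intro c _
    have h3 : (∑ b ∈ U ∪ L, Y c b * m b) ≤ ∑ b ∈ U ∪ L, W c b * m b :=
      Finset.sum_le_sum fun b _ => mul_le_mul_of_nonneg_right (hYW c b) (hm b)
    rw [Finset.sum_union hd (f := fun b => W c b * m b)] at h3
    have h5 := hdeg c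
    linarith
  have hYsplit := bs_split hsym m hd
  rw [← hR] at hYsplit
  have hom : ∑ a ∈ U, ∑ b ∈ L, (1 - Y a b) * (m a * m b) = u * l - bs Y m U L := by
    rw [hu, hl, Finset.sum_mul_sum]
    unfold bs
    rw [← Finset.sum_sub_distrib]
    refine Finset.sum_congr rfl fun a _ => ?_
    rw [← Finset.sum_sub_distrib]
    refine Finset.sum_congr rfl fun b _ => ?_
    ring
  rw [hYsplit, hom]
  have hs2 : √κ ^ 2 = κ := Real.sq_sqrt hκ.le
  have hs1 : √κ ≤ 1 := by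
    rw [show (1 : ℝ) = √1 from Real.sqrt_one.symm]
    exact Real.sqrt_le_sqrt (by linarith)
  have hκs : κ ≤ √κ := by nlinarith
  have h2ul : 2 * (u * l) ≤ 1 / 2 - ρ + ρ ^ 2 / 2 := by
    have h7 : u + l = 1 - ρ := by linarith
    nlinarith [sq_nonneg (u - l)]
  have h8 : ρ ^ 2 / 2 + 8 * ρ * √κ ≤ 40 * κ * √κ := by
    have h9 : ρ ^ 2 ≤ (4 * κ) ^ 2 := pow_le_pow_left₀ hρ0 hρκ 2
    have h10 : ρ * √κ ≤ 4 * κ * √κ := mul_le_mul_of_nonneg_right hρκ hs0.le
    have h11 : κ * κ ≤ κ * √κ := mul_le_mul_of_nonneg_left hκs hκ.le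
    have h12 : (4 * κ) ^ 2 = 16 * (κ * κ) := by ring
    have h13 : 8 * ρ * √κ = 8 * (ρ * √κ) := by ring
    have h14 : 4 * κ * √κ = 4 * (κ * √κ) := by ring
    have h15 : 40 * κ * √κ = 40 * (κ * √κ) := by ring
    rw [h13, h15]
    rw [h12] at h9
    rw [h14] at h10
    linarith
  have e : ρ * (1 / 2 + 4 * √κ) = ρ / 2 + 8 * ρ * √κ / 2 := by ring
  rw [e] at hYR hYR2
  linarith

end gen

end Pool.Agent.H99.LK.StructS

namespace Pool.Agent.H99.LK

open Pool.Agent.H69.CPR Pool.Agent.H99.CP StructS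

variable {k : ℕ} {Y : Finset (Fin k) → Finset (Fin k) → ℝ} {m : Finset (Fin k) → ℝ}

theorem structS (hY : TMK Y) (hm : ∀ A, 0 ≤ m A) (hs : ∑ A, m A = 1) {κ : ℝ} (hκ : 0 < κ)
    (hκ1 : κ ≤ 1 / 1600) (hq : 1 / 2 - κ < qf Y m) :
    ∃ U L : Finset (Finset (Fin k)), Disjoint U L ∧
      (∀ A ∈ U, ∀ A' ∈ U, Y A A' ≤ 0) ∧ (∀ B ∈ L, ∀ B' ∈ L, Y B B' ≤ 0) ∧
      1 / 4 - 5 * κ ≤ (∑ A ∈ U, m A) * (∑ B ∈ L, m B) ∧
      qf Y m ≤ 1 / 2 - 2 * om Y m U L - en Y m U - en Y m L + 40 * κ * √κ := by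
  classical
  obtain ⟨A0, B0, h0, hmass, hH⟩ := edge hY hm hs hκ (by linarith) hq
  have hmem : ∀ A B, B ∈ hn Y A ↔ 1 / 2 < Y A B := by
    intro A B
    unfold hn
    simp
  have hd : Disjoint (hn Y B0) (hn Y A0) := by
    rw [Finset.disjoint_left]
    intro C hC1 hC2
    rw [hmem] at hC1 hC2
    rw [hY.sym] at hC1 hC2
    have := heavy_triple hY hC2 hC1
    linarith
  have hU : ∀ A ∈ hn Y B0, ∀ A' ∈ hn Y B0, Y A A' ≤ 0 := by
    intro A hA A' hA'
    rw [hmem] at hA hA'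
    exact heavy_triple hY hA hA'
  have hL : ∀ A ∈ hn Y A0, ∀ A' ∈ hn Y A0, Y A A' ≤ 0 := by
    intro A hA A' hA'
    rw [hmem] at hA hA'
    exact heavy_triple hY hA hA'
  have hc := core hY.sym hY.le_one hm hs hd hU hL
    (fun a b c => by
      have := W_triple hY a b c
      unfold pos at this
      exact this) hκ hκ1 hmass (by
      refine hH.trans (le_of_eq ?_)
      unfold bs
      refine Finset.sum_congr rfl fun A _ => ?_
      unfold hn
      rw [Finset.sum_filter]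
      refine Finset.sum_congr rfl fun B _ => ?_
      by_cases h : 1 / 2 < Y A B
      · rw [if_pos h]
        show m A * m B = (if 1 / 2 < Y A B then (1 : ℝ) else 0) * (m A * m B)
        rw [if_pos h, one_mul]
      · rw [if_neg h]
        show (0 : ℝ) = (if 1 / 2 < Y A B then (1 : ℝ) else 0) * (m A * m B)
        rw [if_neg h, zero_mul])
  refine ⟨hn Y B0, hn Y A0, hd, hU, hL, hc.1, ?_⟩
  have e1 : qf Y m = bs Y m univ univ := rfl
  have e2 : ∀ S : Finset (Finset (Fin k)), en Y m S = - bs Y m S S := by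
    intro S
    unfold en bs
    rw [← Finset.sum_neg_distrib]
    refine Finset.sum_congr rfl fun A _ => ?_
    rw [← Finset.sum_neg_distrib]
    refine Finset.sum_congr rfl fun B _ => ?_
    ring
  have e3 := hc.2
  rw [e1, e2, e2]
  unfold om
  linarith

end Pool.Agent.H99.LK
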