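import Mathlib
import Pool.Agent.H99.LK.Edge
import Pool.Agent.H99.LK.WTri
import Pool.Agent.H99.LK.StructS

/-!
# Near-extremal kernels are nearly complete bipartite

Take `A0, B0` from `edge`, `L = hn Y A0`, `U = hn Y B0`.  `heavy_triple` gives `Y ≤ 0` inside `U`
and inside `L`, and `Disjoint U L` (for `C` in both: `Y A0 B0 ≤ 0`, a contradiction).
Let `u, l` be the masses of `U, L`, `ρ = 1 - u - l`, so `0 ≤ ρ ≤ 4κ`.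
`H A B = 1` if `1/2 < Y A B`, else `0`; `P = pos Y`, `W = min 1 (2 P)`.
(1) `∑∑ H m m ≤ 2 H(U, L) + 2ρ` (no `H` pairs inside `U`, inside `L`; ordered pairs with an end
outside `U ∪ L` have mass at most `2ρ`), so `H(U, L) ≥ 1/4 - 5κ` and `u l ≥ H(U, L) ≥ 1/4 - 5κ`.
(2) As `u + l ≤ 1`, `(u - l)² = (u + l)² - 4 u l ≤ 20κ`, so `min u l ≥ (1 - 4κ - √(20κ))/2`.
(3) `W_triple` for every type `C`, multiplied by `m A m B` and summed over `A ∈ U, B ∈ L`: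
`l * ∑_{A ∈ U} W C A m A + u * ∑_{B ∈ L} W C B m B ≤ u l + ∑_{U×L} (1 - W) m m ≤ 1/4 + 5κ`
(`W ≥ H`, `u l ≤ 1/4`), hence
`∑_B P C B m B ≤ ∑_B W C B m B ≤ (1/4 + 5κ)/min u l + ρ ≤ 1/2 + 4 √κ`  (κ ≤ 1/1600).
(4) `qf Y m ≤ 2 ∑_{U×L} Y m m - en U - en L + 2 ∑_{C ∉ U ∪ L} m C ∑_B P C B m B
≤ 2 u l - 2 om - en U - en L + 2 ρ (1/2 + 4√κ)` and `2 u l ≤ (1 - ρ)²/2 = 1/2 - ρ + ρ²/2`, so
`qf Y m ≤ 1/2 - 2 om - en U - en L + ρ²/2 + 8ρ√κ` and `ρ²/2 + 8 ρ √κ ≤ 8κ² + 32 κ√κ ≤ 40 κ √κ`.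
-/

open Finset

namespace Pool.Agent.H99.LK

open Pool.Agent.H69.CPR Pool.Agent.H99.CP

variable {k : ℕ} {Y : Finset (Fin k) → Finset (Fin k) → ℝ} {m : Finset (Fin k) → ℝ}

theorem struct (hY : TMK Y) (hm : ∀ A, 0 ≤ m A) (hs : ∑ A, m A = 1) {κ : ℝ} (hκ : 0 < κ)
    (hκ1 : κ ≤ 1 / 1600) (hq : 1 / 2 - κ < qf Y m) :
    ∃ U L : Finset (Finset (Fin k)), Disjoint U L ∧
      (∀ A ∈ U, ∀ A' ∈ U, Y A A' ≤ 0) ∧ (∀ B ∈ L, ∀ B' ∈ L, Y B B' ≤ 0) ∧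
      1 / 4 - 5 * κ ≤ (∑ A ∈ U, m A) * (∑ B ∈ L, m B) ∧
      qf Y m ≤ 1 / 2 - 2 * om Y m U L - en Y m U - en Y m L + 40 * κ * √κ :=
  structS hY hm hs hκ hκ1 hq

end Pool.Agent.H99.LK
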