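import Mathlib
import Pool.Agent.H99.LK.Avg1
import Pool.Agent.H99.LK.Avg2
import Pool.Agent.H99.LK.Cover
import Pool.Agent.H99.LK.Num
import Pool.Agent.H99.LK.Struct

/-!
# The kernel inequality for large `k`

`kernel`: with `κ = 1/√(2k)` (that is `2 κ² k = 1`) and `κ ≤ ε³/10⁸`:
`qf Y m ≤ 1/2 - (1 - ε) κ`.

Proof.  Suppose not; then `qf Y m > 1/2 - κ`, take `U, L` from `struct`, masses `u, l`; by
`40 √κ ≤ 1` one gets `om ≤ κ`, `en U ≤ 2κ`, `en L ≤ 2κ` (all three are `≥ 0`), and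
`u, l ≥ 1/5` (both are `≤ 1` and `u l ≥ 1/4 - 5κ`).  `θ = ε/80`,
`U1 = {A ∈ U : ∑ B ∈ L, (1 - Y A B) m B ≤ θ}`, `mass (U \ U1) ≤ κ/θ` (`trunc`);
`avg1` for `U1, L`: `(1 - ε/8) ad U1 ≤ en U1 ≤ en U ≤ 2κ`, so `ad U1 ≤ 4κ`.  `K = 256/ε`,
`τ = K κ`, `U2 = {A ∈ U1 : dg m U1 A ≤ τ}`, `mass (U1 \ U2) ≤ 4κ/τ = 4/K`.  The same for `L`
(with the full `U`).  Put `a = 1/4 - 6κ - κ/θ - 4/K` and `A = ad U2`, `B = ad L2`, `P = en U2`,
`Q = en L2`.  `aj U2 L2 ≥ u2 l2 - om ≥ a` (a pair which does not meet has `1 - Y = 1`).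
`cover`: `a² ≤ k A B`, that is `A B ≥ 2 κ² a²`.  `avg1`: `P ≥ (1 - ε/8) A`, `Q ≥ (1 - ε/8) B`
(`dg m U2 A ≤ dg m U1 A`).  `avg2`: `P B + Q A ≥ 3 A B - 8 τ² κ`.  `num` gives
`P + Q ≥ (1 - ε/2) κ`, so `qf Y m ≤ 1/2 - (1 - ε/2) κ + 40 κ √κ ≤ 1/2 - (1 - ε) κ`.
-/

open Finset

namespace Pool.Agent.H99.LK

open Pool.Agent.H69.CPR Pool.Agent.H99.CP

variable {k : ℕ} {Y : Finset (Fin k) → Finset (Fin k) → ℝ} {m : Finset (Fin k) → ℝ}

theorem dg_nonneg (hm : ∀ A, 0 ≤ m A) (U : Finset (Finset (Fin k))) (A : Finset (Fin k)) :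
    0 ≤ dg m U A := by
  unfold dg
  refine Finset.sum_nonneg fun B _ => ?_
  split_ifs
  · exact hm B
  · exact le_rfl

theorem dg_mono (hm : ∀ A, 0 ≤ m A) {U V : Finset (Finset (Fin k))} (h : V ⊆ U)
    (A : Finset (Fin k)) : dg m V A ≤ dg m U A := by
  unfold dg
  refine Finset.sum_le_sum_of_subset_of_nonneg h fun B _ _ => ?_
  split_ifs
  · exact hm B
  · exact le_rfl

theorem ad_nonneg (hm : ∀ A, 0 ≤ m A) (U : Finset (Finset (Fin k))) : 0 ≤ ad m U :=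
  Finset.sum_nonneg fun A _ => mul_nonneg (hm A) (dg_nonneg hm U A)

theorem en_nonneg (hm : ∀ A, 0 ≤ m A) {U : Finset (Finset (Fin k))}
    (hU : ∀ A ∈ U, ∀ A' ∈ U, Y A A' ≤ 0) : 0 ≤ en Y m U := by
  unfold en
  refine Finset.sum_nonneg fun A hA => Finset.sum_nonneg fun B hB => ?_
  exact mul_nonneg (by linarith [hU A hA B hB]) (mul_nonneg (hm A) (hm B))

theorem en_mono (hm : ∀ A, 0 ≤ m A) {U V : Finset (Finset (Fin k))}
    (hU : ∀ A ∈ U, ∀ A' ∈ U, Y A A' ≤ 0) (h : V ⊆ U) : en Y m V ≤ en Y m U := by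
  unfold en
  have h1 : ∀ A ∈ U, ∀ B ∈ U, 0 ≤ -(Y A B) * (m A * m B) := fun A hA B hB =>
    mul_nonneg (by linarith [hU A hA B hB]) (mul_nonneg (hm A) (hm B))
  calc ∑ A ∈ V, ∑ B ∈ V, -(Y A B) * (m A * m B)
      ≤ ∑ A ∈ V, ∑ B ∈ U, -(Y A B) * (m A * m B) :=
        Finset.sum_le_sum fun A hA =>
          Finset.sum_le_sum_of_subset_of_nonneg h fun B hB _ => h1 A (h hA) B hB
    _ ≤ ∑ A ∈ U, ∑ B ∈ U, -(Y A B) * (m A * m B) :=
        Finset.sum_le_sum_of_subset_of_nonneg h fun A hA _ =>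
          Finset.sum_nonneg fun B hB => h1 A hA B hB

theorem om_nonneg (hY : TMK Y) (hm : ∀ A, 0 ≤ m A) (U L : Finset (Finset (Fin k))) :
    0 ≤ om Y m U L := by
  unfold om
  refine Finset.sum_nonneg fun A _ => Finset.sum_nonneg fun B _ => ?_
  exact mul_nonneg (by linarith [hY.le_one A B]) (mul_nonneg (hm A) (hm B))

theorem om_mono (hY : TMK Y) (hm : ∀ A, 0 ≤ m A) {U V L M : Finset (Finset (Fin k))}
    (h : V ⊆ U) (h' : M ⊆ L) : om Y m V M ≤ om Y m U L := by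
  unfold om
  have h1 : ∀ A B, 0 ≤ (1 - Y A B) * (m A * m B) := fun A B =>
    mul_nonneg (by linarith [hY.le_one A B]) (mul_nonneg (hm A) (hm B))
  calc ∑ A ∈ V, ∑ B ∈ M, (1 - Y A B) * (m A * m B)
      ≤ ∑ A ∈ V, ∑ B ∈ L, (1 - Y A B) * (m A * m B) :=
        Finset.sum_le_sum fun A hA =>
          Finset.sum_le_sum_of_subset_of_nonneg h' fun B _ _ => h1 A B
    _ ≤ ∑ A ∈ U, ∑ B ∈ L, (1 - Y A B) * (m A * m B) :=
        Finset.sum_le_sum_of_subset_of_nonneg h fun A _ _ =>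
          Finset.sum_nonneg fun B _ => h1 A B

theorem om_comm (hY : TMK Y) (U L : Finset (Finset (Fin k))) : om Y m L U = om Y m U L := by
  unfold om
  rw [Finset.sum_comm]
  refine Finset.sum_congr rfl fun A _ => Finset.sum_congr rfl fun B _ => ?_
  rw [hY.sym B A]
  ring

theorem aj_ge (hY : TMK Y) (hm : ∀ A, 0 ≤ m A) (U L : Finset (Finset (Fin k))) :
    (∑ A ∈ U, m A) * (∑ B ∈ L, m B) - om Y m U L ≤ aj m U L := by
  unfold om aj
  rw [Finset.sum_mul_sum, ← Finset.sum_sub_distrib]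
  refine Finset.sum_le_sum fun A _ => ?_
  rw [← Finset.sum_sub_distrib]
  refine Finset.sum_le_sum fun B _ => ?_
  have h1 : 0 ≤ m A * m B := mul_nonneg (hm A) (hm B)
  split_ifs with h
  · have := mul_nonneg (by linarith [hY.le_one A B] : 0 ≤ 1 - Y A B) h1
    linarith
  · rw [hY.adj A B h]
    linarith

/-- truncation on one side -/
theorem side (hY : TMK Y) (hm : ∀ A, 0 ≤ m A) {U L : Finset (Finset (Fin k))}
    (hU : ∀ A ∈ U, ∀ A' ∈ U, Y A A' ≤ 0) {ε κ : ℝ} (hε : 0 < ε) (hε1 : ε ≤ 1) (hκ : 0 < κ)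
    (hl : 1 / 5 ≤ ∑ B ∈ L, m B) (hom : om Y m U L ≤ κ) (hen : en Y m U ≤ 2 * κ) :
    ∃ V ⊆ U, ∑ A ∈ U, m A - κ / (ε / 80) - 4 / (256 / ε) ≤ ∑ A ∈ V, m A ∧
      (∀ A ∈ V, dg m V A ≤ 256 / ε * κ) ∧ (1 - ε / 8) * ad m V ≤ en Y m V := by
  classical
  have hθ : 0 < ε / 80 := by positivity
  have hf1 : ∀ A ∈ U, 0 ≤ ∑ B ∈ L, (1 - Y A B) * m B := fun A _ =>
    Finset.sum_nonneg fun B _ => mul_nonneg (by linarith [hY.le_one A B]) (hm B)
  have t1 := trunc U m (fun A => ∑ B ∈ L, (1 - Y A B) * m B) (fun A _ => hm A) hf1 hθ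
  set U1 := U.filter fun A => ∑ B ∈ L, (1 - Y A B) * m B ≤ ε / 80 with hU1
  have hU1U : U1 ⊆ U := Finset.filter_subset _ _
  have hsum1 : ∑ A ∈ U, m A * ∑ B ∈ L, (1 - Y A B) * m B = om Y m U L := by
    unfold om
    refine Finset.sum_congr rfl fun A _ => ?_
    rw [Finset.mul_sum]
    exact Finset.sum_congr rfl fun B _ => by ring
  have hav : ∀ V ⊆ U1, (1 - ε / 8) * ad m V ≤ en Y m V := by
    intro V hV
    have h1 := avg1 (U := V) (L := L) hY hm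
      (fun A hA A' hA' => hU A (hU1U (hV hA)) A' (hU1U (hV hA'))) rfl (by linarith)
      (θ := ε / 80) (fun A hA => (Finset.mem_filter.1 (hV hA)).2)
    have h2 : 2 * (ε / 80) / (∑ B ∈ L, m B) ≤ ε / 8 := by
      rw [div_le_iff₀ (by linarith)]
      nlinarith
    have h3 := ad_nonneg hm V
    nlinarith
  have hen1 : en Y m U1 ≤ 2 * κ := (en_mono hm hU hU1U).trans hen
  have had1 : ad m U1 ≤ 4 * κ := by
    have h1 := hav U1 (Finset.Subset.refl _)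
    have h3 := ad_nonneg hm U1
    nlinarith
  have hτ : 0 < 256 / ε * κ := by positivity
  have t2 := trunc U1 m (fun A => dg m U1 A) (fun A _ => hm A) (fun A _ => dg_nonneg hm U1 A) hτ
  set V := U1.filter fun A => dg m U1 A ≤ 256 / ε * κ with hV
  have hVU1 : V ⊆ U1 := Finset.filter_subset _ _
  refine ⟨V, hVU1.trans hU1U, ?_, ?_, hav V hVU1⟩
  · have h1 : om Y m U L / (ε / 80) ≤ κ / (ε / 80) := div_le_div_of_nonneg_right hom hθ.le
    rw [hsum1] at t1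
    have h2 : (∑ A ∈ U1, m A * dg m U1 A) / (256 / ε * κ) ≤ 4 / (256 / ε) := by
      have h3 : ∑ A ∈ U1, m A * dg m U1 A ≤ 4 * κ := had1
      have h4 : 4 / (256 / ε) = 4 * κ / (256 / ε * κ) := by
        field_simp
      rw [h4]
      exact div_le_div_of_nonneg_right h3 hτ.le
    linarith
  · intro A hA
    exact (dg_mono hm hVU1 A).trans (Finset.mem_filter.1 hA).2

theorem kernel (hY : TMK Y) (hm : ∀ A, 0 ≤ m A) (hs : ∑ A, m A = 1) {ε κ : ℝ} (hε : 0 < ε)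
    (hε1 : ε ≤ 1) (hκ : 0 < κ) (hκk : 2 * κ ^ 2 * k = 1) (hκ0 : κ ≤ ε ^ 3 / 10 ^ 8) :
    qf Y m ≤ 1 / 2 - (1 - ε) * κ := by
  classical
  by_contra hcon
  push Not at hcon
  have he2 : ε ^ 3 ≤ ε ^ 2 := by nlinarith [sq_nonneg ε]
  have he3 : ε ^ 2 ≤ ε := by nlinarith
  have hκ1 : κ ≤ 1 / 10 ^ 8 := by
    refine hκ0.trans ?_
    apply div_le_div_of_nonneg_right _ (by norm_num)
    linarith
  have hεκ : 0 < ε * κ := mul_pos hε hκ
  obtain ⟨U, L, hUL, hU, hL, hul, hq⟩ := struct hY hm hs hκ (by linarith)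
    (by linarith : 1 / 2 - κ < qf Y m)
  have hsq : √κ ≤ ε / 80 := by
    apply Real.sqrt_le_iff.2 ⟨by positivity, ?_⟩
    nlinarith
  have hsq0 : 0 ≤ √κ := Real.sqrt_nonneg _
  have h40 : 40 * κ * √κ ≤ ε / 2 * κ := by nlinarith
  have e1 := om_nonneg hY hm U L
  have e2 := en_nonneg hm hU
  have e3 := en_nonneg hm hL
  have hκε : ε / 2 * κ ≤ κ / 2 := by nlinarith
  -- the masses
  set u := ∑ A ∈ U, m A with hu
  set l := ∑ B ∈ L, m B with hl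
  have hu0 : 0 ≤ u := Finset.sum_nonneg fun A _ => hm A
  have hl0 : 0 ≤ l := Finset.sum_nonneg fun A _ => hm A
  have hul1 : u + l ≤ 1 := by
    rw [hu, hl, ← Finset.sum_union hUL, ← hs]
    exact Finset.sum_le_sum_of_subset_of_nonneg (Finset.subset_univ _) fun A _ _ => hm A
  have hu5 : 1 / 5 ≤ u := by nlinarith
  have hl5 : 1 / 5 ≤ l := by nlinarith
  obtain ⟨V, hVU, hV1, hV2, hV3⟩ := side (L := L) hY hm hU hε hε1 hκ hl5 (by linarith)
    (by linarith)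
  obtain ⟨M, hML, hM1, hM2, hM3⟩ := side (L := U) hY hm hL hε hε1 hκ hu5
    (by rw [om_comm hY]; linarith) (by linarith)
  set x : ℝ := κ / (ε / 80) + 4 / (256 / ε) with hx
  have hx0 : 0 ≤ x := by positivity
  have hx1 : x ≤ 1 / 50 := by
    have h1 : κ / (ε / 80) ≤ 80 / 10 ^ 8 := by
      rw [div_le_iff₀ (by positivity)]
      nlinarith
    have h2 : 4 / (256 / ε) = ε / 64 := by
      field_simp
      norm_num
    rw [hx, h2]
    linarith
  have hajl : 1 / 4 - 6 * κ - x ≤ aj m V M := by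
    have h1 := aj_ge hY hm V M
    have h2 : om Y m V M ≤ om Y m U L := om_mono hY hm hVU hML
    have h3 : (u - x) * (l - x) ≤ (∑ A ∈ V, m A) * (∑ B ∈ M, m B) := by
      apply mul_le_mul _ _ (by linarith) (Finset.sum_nonneg fun A _ => hm A)
      · rw [hx]; linarith
      · rw [hx]; linarith
    nlinarith
  have hcov := cover m hm V M
  have haj0 : 0 ≤ 1 / 4 - 6 * κ - x := by linarith
  have hAB : 2 * κ ^ 2 * (1 / 4 - 6 * κ - x) ^ 2 ≤ ad m V * ad m M := by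
    have h1 : (1 / 4 - 6 * κ - x) ^ 2 ≤ aj m V M ^ 2 := pow_le_pow_left₀ haj0 hajl 2
    have h2 : (1 / 4 - 6 * κ - x) ^ 2 ≤ k * (ad m V * ad m M) := h1.trans hcov
    have h3 := mul_le_mul_of_nonneg_left h2 (by positivity : 0 ≤ 2 * κ ^ 2)
    have h4 : 2 * κ ^ 2 * (k * (ad m V * ad m M)) = ad m V * ad m M := by
      calc 2 * κ ^ 2 * (k * (ad m V * ad m M)) = (2 * κ ^ 2 * k) * (ad m V * ad m M) := by ring
        _ = ad m V * ad m M := by rw [hκk, one_mul]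
    linarith
  have hav := avg2 hY hm (fun A hA A' hA' => hU A (hVU hA) A' (hVU hA'))
    (fun A hA A' hA' => hL A (hML hA) A' (hML hA')) (by positivity) hV2 hM2
  have hom2 : om Y m V M ≤ κ := (om_mono hY hm hVU hML).trans (by linarith)
  have hav' : 3 * (ad m V * ad m M) - 8 * (256 / ε * κ) ^ 2 * κ
      ≤ en Y m V * ad m M + en Y m M * ad m V := by
    have h1 : 8 * (256 / ε * κ) ^ 2 * om Y m V M ≤ 8 * (256 / ε * κ) ^ 2 * κ :=
      mul_le_mul_of_nonneg_left hom2 (by positivity)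
    linarith
  have hfin := num hε hε1 hκ hκ0 rfl (a := 1 / 4 - 6 * κ - x) (by rw [hx]; linarith)
    (ad_nonneg hm V) (ad_nonneg hm M) hAB hV3 hM3 hav'
  have f1 := en_mono hm hU hVU
  have f2 := en_mono hm hL hML
  nlinarith

end Pool.Agent.H99.LK
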