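import Mathlib
import Pool.Agent.H22.F10f644.Lower

/-!
# Lower bound for `cp` of a blow-up of a complete bipartite graph

`c` labels the vertices: `some (inl i)` = clique number `i` on the left (`x` vertices),
`some (inr j)` = clique number `j` on the right (`y` vertices), `none` = the rest.  Two labelled
vertices are adjacent iff they have the same label or lie on different sides.

Proof: `weight_le_card` with `w u v = 1` if `u`, `v` are labelled on different sides, `-1` if both
are on the left, `-2` if both are on the right, `0` if one of them has the label `none`.  A clique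
with `P` vertices on the left and `Q` on the right has ordered weight
`2PQ - P(P-1) - 2Q(Q-1) = -(d² - d) - (Q² - 3Q) ≤ 2` with `d = P - Q` (integers).  The total is
`2 (s x)(t y) - s x (x-1) - 2 t y (y-1)`.
-/

open Finset

namespace Pool.Agent.H99.LK

open Pool.Agent.H22.F10f644

/-- indicator of a label -/
def ind {A : Type*} [DecidableEq A] (a : A) (b : A) : ℤ := if b = a then 1 else 0

theorem low_cp_int {n s t x y : ℕ} (G : SimpleGraph (Fin n)) (c : Fin n → Option (Fin s ⊕ Fin t))
    (hx : ∀ i, (univ.filter fun v => c v = some (Sum.inl i)).card = x)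
    (hy : ∀ j, (univ.filter fun v => c v = some (Sum.inr j)).card = y)
    (hll : ∀ u v i i', c u = some (Sum.inl i) → c v = some (Sum.inl i') →
      (G.Adj u v ↔ u ≠ v ∧ i = i'))
    (hrr : ∀ u v j j', c u = some (Sum.inr j) → c v = some (Sum.inr j') →
      (G.Adj u v ↔ u ≠ v ∧ j = j'))
    (hlr : ∀ u v i j, c u = some (Sum.inl i) → c v = some (Sum.inr j) → G.Adj u v)
    (F : Finset (Finset (Fin n))) (hF : IsCliquePartition G F) :
    2 * (((s : ℤ) * x) * ((t : ℤ) * y)) - ((s : ℤ) * (x * x) - s * x) -
      2 * ((t : ℤ) * (y * y) - t * y) ≤ 2 * (F.card : ℤ) := by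
  classical
  set l : Fin n → ℤ := fun u => ∑ i : Fin s, ind (some (Sum.inl i)) (c u) with hl
  set r : Fin n → ℤ := fun u => ∑ j : Fin t, ind (some (Sum.inr j)) (c u) with hr
  have l_none : ∀ u, c u = none → l u = 0 := by
    intro u hu
    simp [hl, ind, hu]
  have r_none : ∀ u, c u = none → r u = 0 := by
    intro u hu
    simp [hr, ind, hu]
  have l_inl : ∀ u i, c u = some (Sum.inl i) → l u = 1 := by
    intro u i hu
    simp [hl, ind, hu, Finset.filter_eq]
  have r_inl : ∀ u i, c u = some (Sum.inl i) → r u = 0 := by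
    intro u i hu
    simp [hr, ind, hu]
  have l_inr : ∀ u j, c u = some (Sum.inr j) → l u = 0 := by
    intro u j hu
    simp [hl, ind, hu]
  have r_inr : ∀ u j, c u = some (Sum.inr j) → r u = 1 := by
    intro u j hu
    simp [hr, ind, hu, Finset.filter_eq]
  have hself : ∀ u, l u * r u + r u * l u - l u * l u - 2 * (r u * r u) = -(l u) - 2 * r u := by
    intro u
    rcases hcu : c u with _ | (i | j)
    · rw [l_none u hcu, r_none u hcu]; ring
    · rw [l_inl u i hcu, r_inl u i hcu]; ring
    · rw [l_inr u j hcu, r_inr u j hcu]; ring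
  have key := weight_le_card G (fun u v => l u * r v + r u * l v - l u * l v - 2 * (r u * r v))
    (by
      intro S _
      have h1 : ∑ u ∈ S, ∑ v ∈ S, (if u = v then 0 else
            (l u * r v + r u * l v - l u * l v - 2 * (r u * r v)))
          = ∑ u ∈ S, ∑ v ∈ S, (l u * r v + r u * l v - l u * l v - 2 * (r u * r v)) -
            ∑ u ∈ S, (-(l u) - 2 * r u) := by
        rw [← Finset.sum_sub_distrib]
        refine Finset.sum_congr rfl fun u hu => ?_
        rw [← hself u]
        have h2 : l u * r u + r u * l u - l u * l u - 2 * (r u * r u) =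
            ∑ v ∈ S, (if u = v then (l u * r v + r u * l v - l u * l v - 2 * (r u * r v)) else 0) := by
          rw [Finset.sum_ite_eq S u, if_pos hu]
        rw [h2, ← Finset.sum_sub_distrib]
        refine Finset.sum_congr rfl fun v _ => ?_
        by_cases h : u = v
        · rw [if_pos h, if_pos h, sub_self]
        · rw [if_neg h, if_neg h, sub_zero]
      rw [h1]
      set P : ℤ := ∑ u ∈ S, l u with hP
      set Q : ℤ := ∑ u ∈ S, r u with hQ
      have h3 : ∑ u ∈ S, ∑ v ∈ S, (l u * r v + r u * l v - l u * l v - 2 * (r u * r v)) =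
          P * Q + Q * P - P * P - 2 * (Q * Q) := by
        simp only [Finset.sum_sub_distrib, Finset.sum_add_distrib, ← Finset.mul_sum,
          ← Finset.sum_mul, ← hP, ← hQ]
      have h4 : ∑ u ∈ S, (-(l u) - 2 * r u) = -P - 2 * Q := by
        simp only [Finset.sum_sub_distrib, ← Finset.mul_sum, Finset.sum_neg_distrib, ← hP, ← hQ]
      rw [h3, h4]
      have h5 : (0 : ℤ) ≤ (P - Q) * (P - Q - 1) := by
        rcases le_or_gt (P - Q) 0 with h | h
        · nlinarith
        · exact mul_nonneg h.le (by omega)
      have h6 : (0 : ℤ) ≤ (Q - 1) * (Q - 2) := by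
        rcases le_or_gt Q 1 with h | h
        · nlinarith
        · exact mul_nonneg (by omega) (by omega)
      nlinarith) F hF
  have hpt : ∀ u v : Fin n, (if G.Adj u v then
        (l u * r v + r u * l v - l u * l v - 2 * (r u * r v)) else 0) =
      l u * r v + r u * l v -
        (∑ i : Fin s, ind (some (Sum.inl i)) (c u) * ind (some (Sum.inl i)) (c v) -
          if u = v then l u else 0) -
        2 * (∑ j : Fin t, ind (some (Sum.inr j)) (c u) * ind (some (Sum.inr j)) (c v) -
          if u = v then r u else 0) := by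
    intro u v
    rcases hcu : c u with _ | (i | j)
    · rw [l_none u hcu, r_none u hcu]
      simp [ind]
    · rw [l_inl u i hcu, r_inl u i hcu]
      rcases hcv : c v with _ | (i' | j')
      · have huv : u ≠ v := fun h => by rw [h, hcv] at hcu; exact absurd hcu (by simp)
        rw [l_none v hcv, r_none v hcv]
        simp [ind, huv]
      · rw [l_inl v i' hcv, r_inl v i' hcv]
        have hadj := hll u v i i' hcu hcv
        by_cases huv : u = v
        · have hii : i = i' := by
            rw [huv, hcv] at hcu
            simpa using hcu.symm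
          have hna : ¬ G.Adj u v := fun h => (hadj.1 h).1 huv
          rw [if_neg hna]
          simp [ind, huv, hii]
        · by_cases hii : i = i'
          · rw [if_pos (hadj.2 ⟨huv, hii⟩)]
            simp [ind, huv, hii]
          · have hna : ¬ G.Adj u v := fun h => hii (hadj.1 h).2
            rw [if_neg hna]
            simp [ind, huv, hii]
      · have huv : u ≠ v := fun h => by rw [h, hcv] at hcu; exact absurd hcu (by simp)
        rw [l_inr v j' hcv, r_inr v j' hcv, if_pos (hlr u v i j' hcu hcv)]
        simp [ind, huv]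
    · rw [l_inr u j hcu, r_inr u j hcu]
      rcases hcv : c v with _ | (i' | j')
      · have huv : u ≠ v := fun h => by rw [h, hcv] at hcu; exact absurd hcu (by simp)
        rw [l_none v hcv, r_none v hcv]
        simp [ind, huv]
      · have huv : u ≠ v := fun h => by rw [h, hcv] at hcu; exact absurd hcu (by simp)
        rw [l_inl v i' hcv, r_inl v i' hcv, if_pos (hlr v u i' j hcv hcu).symm]
        simp [ind, huv]
      · rw [l_inr v j' hcv, r_inr v j' hcv]
        have hadj := hrr u v j j' hcu hcv
        by_cases huv : u = v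
        · have hjj : j = j' := by
            rw [huv, hcv] at hcu
            simpa using hcu.symm
          have hna : ¬ G.Adj u v := fun h => (hadj.1 h).1 huv
          rw [if_neg hna]
          simp [ind, huv, hjj]
        · by_cases hjj : j = j'
          · rw [if_pos (hadj.2 ⟨huv, hjj⟩)]
            simp [ind, huv, hjj]
          · have hna : ¬ G.Adj u v := fun h => hjj (hadj.1 h).2
            rw [if_neg hna]
            simp [ind, huv, hjj]
  have hsl : ∀ i : Fin s, ∑ u : Fin n, ind (some (Sum.inl i)) (c u) = (x : ℤ) := by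
    intro i
    unfold ind
    rw [Finset.sum_boole, hx i]
  have hsr : ∀ j : Fin t, ∑ u : Fin n, ind (some (Sum.inr j)) (c u) = (y : ℤ) := by
    intro j
    unfold ind
    rw [Finset.sum_boole, hy j]
  have hL : ∑ u, l u = (s : ℤ) * x := by
    rw [hl, Finset.sum_comm]
    simp only [hsl, Finset.sum_const, Finset.card_univ, Fintype.card_fin, nsmul_eq_mul]
  have hR : ∑ u, r u = (t : ℤ) * y := by
    rw [hr, Finset.sum_comm]
    simp only [hsr, Finset.sum_const, Finset.card_univ, Fintype.card_fin, nsmul_eq_mul]
  have hLL : ∑ u : Fin n, ∑ v : Fin n, ∑ i : Fin s,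
      ind (some (Sum.inl i)) (c u) * ind (some (Sum.inl i)) (c v) = (s : ℤ) * (x * x) := by
    have e1 : ∀ u : Fin n, ∑ v : Fin n, ∑ i : Fin s,
        ind (some (Sum.inl i)) (c u) * ind (some (Sum.inl i)) (c v) =
        ∑ i : Fin s, ind (some (Sum.inl i)) (c u) * x := by
      intro u
      rw [Finset.sum_comm]
      refine Finset.sum_congr rfl fun i _ => ?_
      rw [← Finset.mul_sum, hsl]
    simp only [e1]
    rw [Finset.sum_comm]
    simp only [← Finset.sum_mul, hsl, Finset.sum_const, Finset.card_univ, Fintype.card_fin,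
      nsmul_eq_mul]
    ring
  have hRR : ∑ u : Fin n, ∑ v : Fin n, ∑ j : Fin t,
      ind (some (Sum.inr j)) (c u) * ind (some (Sum.inr j)) (c v) = (t : ℤ) * (y * y) := by
    have e1 : ∀ u : Fin n, ∑ v : Fin n, ∑ j : Fin t,
        ind (some (Sum.inr j)) (c u) * ind (some (Sum.inr j)) (c v) =
        ∑ j : Fin t, ind (some (Sum.inr j)) (c u) * y := by
      intro u
      rw [Finset.sum_comm]
      refine Finset.sum_congr rfl fun j _ => ?_
      rw [← Finset.mul_sum, hsr]
    simp only [e1]
    rw [Finset.sum_comm]
    simp only [← Finset.sum_mul, hsr, Finset.sum_const, Finset.card_univ, Fintype.card_fin,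
      nsmul_eq_mul]
    ring
  have htot : ∑ u, ∑ v, (if G.Adj u v then
        (l u * r v + r u * l v - l u * l v - 2 * (r u * r v)) else 0) =
      2 * (((s : ℤ) * x) * ((t : ℤ) * y)) - ((s : ℤ) * (x * x) - s * x) -
        2 * ((t : ℤ) * (y * y) - t * y) := by
    simp only [hpt, Finset.sum_sub_distrib, Finset.sum_add_distrib, ← Finset.mul_sum,
      ← Finset.sum_mul, Finset.sum_ite_eq, Finset.mem_univ, if_true, hL, hR, hLL, hRR]
    ring
  rw [htot] at key
  exact key

theorem low_cp {n s t x y : ℕ} (G : SimpleGraph (Fin n)) (c : Fin n → Option (Fin s ⊕ Fin t))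
    (hx : ∀ i, (univ.filter fun v => c v = some (Sum.inl i)).card = x)
    (hy : ∀ j, (univ.filter fun v => c v = some (Sum.inr j)).card = y)
    (hll : ∀ u v i i', c u = some (Sum.inl i) → c v = some (Sum.inl i') →
      (G.Adj u v ↔ u ≠ v ∧ i = i'))
    (hrr : ∀ u v j j', c u = some (Sum.inr j) → c v = some (Sum.inr j') →
      (G.Adj u v ↔ u ≠ v ∧ j = j'))
    (hlr : ∀ u v i j, c u = some (Sum.inl i) → c v = some (Sum.inr j) → G.Adj u v) :
    ((s : ℝ) * x) * ((t : ℝ) * y) - (s : ℝ) * x ^ 2 / 2 - (t : ℝ) * y ^ 2 ≤ cp G := by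
  have hne : {m | ∃ F : Finset (Finset (Fin n)), IsCliquePartition G F ∧ F.card = m}.Nonempty := by
    obtain ⟨F, hF⟩ := exists_partition G
    exact ⟨F.card, F, hF, rfl⟩
  obtain ⟨F, hF, hc⟩ := Nat.sInf_mem hne
  have h1 := low_cp_int G c hx hy hll hrr hlr F hF
  have h2 : F.card = cp G := hc
  rw [h2] at h1
  have h3 : 2 * (((s : ℝ) * x) * ((t : ℝ) * y)) - ((s : ℝ) * (x * x) - s * x) -
      2 * ((t : ℝ) * (y * y) - t * y) ≤ 2 * (cp G : ℝ) := by exact_mod_cast h1
  have h4 : (0 : ℝ) ≤ (s : ℝ) * x := by positivity
  have h5 : (0 : ℝ) ≤ (t : ℝ) * y := by positivity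
  nlinarith

end Pool.Agent.H99.LK
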