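import Mathlib
import Pool.Agent.H29.CPR.Main
import Pool.Agent.H99.LK.Indep
import Pool.Agent.H99.LK.LowCp

/-!
# The graphs of the lower bound

Given `s, t ≥ 1`, `s t ≤ k`, `x, y ≥ 1` and `s x + t y + 2 k ≤ n` there is a graph on `Fin n` with
`cc G = k` and the `cp` bound of `low_cp`.

Construction: an injection `e : Fin s × Fin t ↪ Fin k` and an injection `φ` of
`(Fin s × Fin x) ⊕ (Fin t × Fin y) ⊕ (Fin k × Fin 2)` into `Fin n`; the type of a vertex is
* `{e (i, j) | j}` for `φ (inl (i, a))`                       (label `inl i`),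
* `{e (i, j) | i}` for `φ (inr (inl (j, b)))`                 (label `inr j`),
* `{r}` for `φ (inr (inr (r, c)))`, `r : Fin k` not in the range of `e`,
* `∅` otherwise (label `none` in the last two cases).
`G = tg S`.  `cc G ≤ k`: the cliques `{v | i ∈ S v}`, `i : Fin k` (each has at least 2 vertices).
`k ≤ cc G`: `indep` with the edges (first vertex of left clique `i`, first vertex of right clique
`j`) for the index `e (i, j)` and (`φ (r, 0)`, `φ (r, 1)`) for the other indices `r`.
-/

open Finset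

namespace Pool.Agent.H99.LK

open Pool.Agent.H22.F10f644 Pool.Agent.H29.CPR

theorem low_graph {n k s t x y : ℕ} (hs : 0 < s) (ht : 0 < t) (hst : s * t ≤ k) (hx : 0 < x)
    (hy : 0 < y) (hn : s * x + t * y + 2 * k ≤ n) :
    ∃ G : SimpleGraph (Fin n), cc G = k ∧
      ((s : ℝ) * x) * ((t : ℝ) * y) - (s : ℝ) * x ^ 2 / 2 - (t : ℝ) * y ^ 2 ≤ cp G := by
  classical
  obtain ⟨e⟩ : Nonempty (Fin s × Fin t ↪ Fin k) := by
    apply Function.Embedding.nonempty_of_card_le
    simpa using hst
  obtain ⟨φ⟩ : Nonempty ((Fin s × Fin x) ⊕ (Fin t × Fin y) ⊕ (Fin k × Fin 2) ↪ Fin n) := by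
    apply Function.Embedding.nonempty_of_card_le
    simp only [Fintype.card_sum, Fintype.card_prod, Fintype.card_fin]
    omega
  obtain ⟨τ, hτ⟩ : ∃ τ : (Fin s × Fin x) ⊕ (Fin t × Fin y) ⊕ (Fin k × Fin 2) → Finset (Fin k),
      τ = Sum.elim (fun z => univ.image fun j => e (z.1, j))
        (Sum.elim (fun z => univ.image fun i => e (i, z.1))
          (fun z => if ∃ w, e w = z.1 then ∅ else {z.1})) := ⟨_, rfl⟩
  obtain ⟨lab, hlab⟩ : ∃ lab : (Fin s × Fin x) ⊕ (Fin t × Fin y) ⊕ (Fin k × Fin 2) →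
      Option (Fin s ⊕ Fin t), lab = Sum.elim (fun z => some (Sum.inl z.1))
        (Sum.elim (fun z => some (Sum.inr z.1)) (fun _ => none)) := ⟨_, rfl⟩
  have τ1 : ∀ i a r, r ∈ τ (Sum.inl (i, a)) ↔ ∃ j, e (i, j) = r := by
    intro i a r; rw [hτ]; simp
  have τ2 : ∀ j b r, r ∈ τ (Sum.inr (Sum.inl (j, b))) ↔ ∃ i, e (i, j) = r := by
    intro i a r; rw [hτ]; simp
  have τ3 : ∀ r c r', r' ∈ τ (Sum.inr (Sum.inr (r, c))) ↔ (¬ ∃ w, e w = r) ∧ r' = r := by
    intro r c r'
    rw [hτ]
    by_cases h : ∃ w, e w = r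
    · simp only [Sum.elim_inr, if_pos h]
      simp [h]
    · simp only [Sum.elim_inr, if_neg h, Finset.mem_singleton]
      exact ⟨fun h' => ⟨h, h'⟩, fun h' => h'.2⟩
  obtain ⟨T, hT⟩ : ∃ T : Fin n → Finset (Fin k), T = Function.extend φ τ (fun _ => ∅) := ⟨_, rfl⟩
  obtain ⟨c, hc⟩ : ∃ c : Fin n → Option (Fin s ⊕ Fin t),
      c = Function.extend φ lab (fun _ => none) := ⟨_, rfl⟩
  have hTφ : ∀ z, T (φ z) = τ z := fun z => by rw [hT, φ.injective.extend_apply]
  have hcφ : ∀ z, c (φ z) = lab z := fun z => by rw [hc, φ.injective.extend_apply]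
  have hc0 : ∀ v w, c v = some w → ∃ z, φ z = v ∧ lab z = some w := by
    intro v w hv
    by_cases h : ∃ z, φ z = v
    · obtain ⟨z, rfl⟩ := h
      exact ⟨z, rfl, by rw [← hcφ, hv]⟩
    · rw [hc, Function.extend_apply' _ _ _ h] at hv
      exact absurd hv (by simp)
  have hcl : ∀ v i, c v = some (Sum.inl i) ↔ ∃ a, v = φ (Sum.inl (i, a)) := by
    intro v i
    constructor
    · intro hv
      obtain ⟨z, rfl, hz⟩ := hc0 v _ hv
      rw [hlab] at hz
      rcases z with ⟨i', a⟩ | ⟨j', b⟩ | ⟨r, d⟩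
      · simp only [Sum.elim_inl, Option.some.injEq, Sum.inl.injEq] at hz
        exact ⟨a, by rw [hz]⟩
      · simp at hz
      · simp at hz
    · rintro ⟨a, rfl⟩
      rw [hcφ, hlab]
      rfl
  have hcr : ∀ v j, c v = some (Sum.inr j) ↔ ∃ b, v = φ (Sum.inr (Sum.inl (j, b))) := by
    intro v i
    constructor
    · intro hv
      obtain ⟨z, rfl, hz⟩ := hc0 v _ hv
      rw [hlab] at hz
      rcases z with ⟨i', a⟩ | ⟨j', b⟩ | ⟨r, d⟩
      · simp at hz
      · simp only [Sum.elim_inl, Sum.elim_inr, Option.some.injEq, Sum.inr.injEq] at hz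
        exact ⟨b, by rw [hz]⟩
      · simp at hz
    · rintro ⟨a, rfl⟩
      rw [hcφ, hlab]
      rfl
  have hadj : ∀ u v, (tg T).Adj u v ↔ u ≠ v ∧ (T u ∩ T v).Nonempty := fun u v => Iff.rfl
  refine ⟨tg T, ?_, low_cp (tg T) c ?_ ?_ ?_ ?_ ?_⟩
  · apply le_antisymm
    · -- the cover
      obtain ⟨Q, hQ⟩ : ∃ Q : Fin k → Finset (Fin n), Q = fun r => univ.filter fun v => r ∈ T v :=
        ⟨_, rfl⟩
      have mQ : ∀ r v, v ∈ Q r ↔ r ∈ T v := by intro r v; rw [hQ]; simp
      have hcov : IsCliqueCover (tg T) (univ.image Q) := by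
        constructor
        · intro S hS
          obtain ⟨r, -, rfl⟩ := Finset.mem_image.1 hS
          constructor
          · have h2 : ∃ u v, u ≠ v ∧ u ∈ Q r ∧ v ∈ Q r := by
              by_cases h : ∃ w, e w = r
              · obtain ⟨⟨i, j⟩, rfl⟩ := h
                refine ⟨φ (Sum.inl (i, ⟨0, hx⟩)), φ (Sum.inr (Sum.inl (j, ⟨0, hy⟩))), ?_, ?_, ?_⟩
                · intro h
                  have := φ.injective h
                  simp at this
                · rw [mQ, hTφ, τ1]; exact ⟨j, rfl⟩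
                · rw [mQ, hTφ, τ2]; exact ⟨i, rfl⟩
              · refine ⟨φ (Sum.inr (Sum.inr (r, 0))), φ (Sum.inr (Sum.inr (r, 1))), ?_, ?_, ?_⟩
                · intro h
                  have := φ.injective h
                  simp at this
                · rw [mQ, hTφ, τ3]; exact ⟨h, rfl⟩
                · rw [mQ, hTφ, τ3]; exact ⟨h, rfl⟩
            obtain ⟨u, v, huv, hu, hv⟩ := h2
            exact Finset.one_lt_card.2 ⟨u, hu, v, hv, huv⟩
          · intro u hu v hv huv
            exact ⟨huv, r, Finset.mem_inter.2 ⟨(mQ r u).1 hu, (mQ r v).1 hv⟩⟩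
        · intro u v huv
          obtain ⟨-, r, hr⟩ := huv
          rw [Finset.mem_inter] at hr
          exact ⟨Q r, Finset.mem_image_of_mem _ (Finset.mem_univ r), (mQ r u).2 hr.1,
            (mQ r v).2 hr.2⟩
      refine (cc_le _ _ hcov).trans ?_
      refine Finset.card_image_le.trans ?_
      simp
    · -- independent edges
      have hch : ∀ r : Fin k, ∃ a b : (Fin s × Fin x) ⊕ (Fin t × Fin y) ⊕ (Fin k × Fin 2),
          (∃ i j, e (i, j) = r ∧ a = Sum.inl (i, ⟨0, hx⟩) ∧ b = Sum.inr (Sum.inl (j, ⟨0, hy⟩))) ∨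
          ((¬ ∃ w, e w = r) ∧ a = Sum.inr (Sum.inr (r, 0)) ∧ b = Sum.inr (Sum.inr (r, 1))) := by
        intro r
        by_cases h : ∃ w, e w = r
        · obtain ⟨⟨i, j⟩, h⟩ := h
          exact ⟨_, _, Or.inl ⟨i, j, h, rfl, rfl⟩⟩
        · exact ⟨_, _, Or.inr ⟨h, rfl, rfl⟩⟩
      choose a b hab using hch
      apply indep (tg T) (fun r => φ (a r)) (fun r => φ (b r))
      · intro r
        rw [hadj, hTφ, hTφ]
        rcases hab r with ⟨i, j, hij, ha, hb⟩ | ⟨hr, ha, hb⟩
        · rw [ha, hb]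
          refine ⟨fun h => ?_, r, Finset.mem_inter.2 ⟨(τ1 _ _ _).2 ⟨j, hij⟩, (τ2 _ _ _).2
            ⟨i, hij⟩⟩⟩
          have := φ.injective h
          simp at this
        · rw [ha, hb]
          refine ⟨fun h => ?_, r, Finset.mem_inter.2 ⟨(τ3 _ _ _).2 ⟨hr, rfl⟩, (τ3 _ _ _).2
            ⟨hr, rfl⟩⟩⟩
          have := φ.injective h
          simp at this
      · intro r r' hrr
        rcases hab r with ⟨i, j, hij, ha, hb⟩ | ⟨hr, ha, hb⟩ <;>
          rcases hab r' with ⟨i', j', hij', ha', hb'⟩ | ⟨hr', ha', hb'⟩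
        · by_cases hii : i = i'
          · right
            have hjj : j ≠ j' := by
              intro h
              apply hrr
              rw [← hij, ← hij', hii, h]
            rw [hb, hb', hadj, hTφ, hTφ]
            constructor
            · intro h
              have := φ.injective h
              simp only [Sum.inr.injEq, Sum.inl.injEq, Prod.mk.injEq] at this
              exact hjj this.1
            · rintro ⟨-, q, hq⟩
              rw [Finset.mem_inter, τ2, τ2] at hq
              obtain ⟨⟨i1, h1⟩, ⟨i2, h2⟩⟩ := hq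
              have := e.injective (h1.trans h2.symm)
              exact hjj (Prod.mk.injEq _ _ _ _ ▸ this).2
          · left
            rw [ha, ha', hadj, hTφ, hTφ]
            constructor
            · intro h
              have := φ.injective h
              simp only [Sum.inl.injEq, Prod.mk.injEq] at this
              exact hii this.1
            · rintro ⟨-, q, hq⟩
              rw [Finset.mem_inter, τ1, τ1] at hq
              obtain ⟨⟨i1, h1⟩, ⟨i2, h2⟩⟩ := hq
              have := e.injective (h1.trans h2.symm)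
              exact hii (Prod.mk.injEq _ _ _ _ ▸ this).1
        · left
          rw [ha, ha', hadj, hTφ, hTφ]
          constructor
          · intro h
            have := φ.injective h
            simp at this
          · rintro ⟨-, q, hq⟩
            rw [Finset.mem_inter, τ1, τ3] at hq
            obtain ⟨⟨i1, h1⟩, ⟨h2, h3⟩⟩ := hq
            exact h2 ⟨_, h1.trans h3⟩
        · left
          rw [ha, ha', hadj, hTφ, hTφ]
          constructor
          · intro h
            have := φ.injective h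
            simp at this
          · rintro ⟨-, q, hq⟩
            rw [Finset.mem_inter, τ1, τ3] at hq
            obtain ⟨⟨h2, h3⟩, ⟨i1, h1⟩⟩ := hq
            exact h2 ⟨_, h1.trans h3⟩
        · left
          rw [ha, ha', hadj, hTφ, hTφ]
          constructor
          · intro h
            have := φ.injective h
            simp only [Sum.inr.injEq, Prod.mk.injEq] at this
            exact hrr this.1
          · rintro ⟨-, q, hq⟩
            rw [Finset.mem_inter, τ3, τ3] at hq
            exact hrr (hq.1.2.symm.trans hq.2.2)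
  · intro i
    have h1 : (univ.filter fun v => c v = some (Sum.inl i)) =
        univ.image fun a : Fin x => φ (Sum.inl (i, a)) := by
      ext v
      simp only [Finset.mem_filter, Finset.mem_univ, true_and, Finset.mem_image, hcl]
      exact ⟨fun ⟨a, h⟩ => ⟨a, h.symm⟩, fun ⟨a, h⟩ => ⟨a, h.symm⟩⟩
    rw [h1, Finset.card_image_of_injective, Finset.card_univ, Fintype.card_fin]
    intro a a' h
    have := φ.injective h
    simpa using this
  · intro j
    have h1 : (univ.filter fun v => c v = some (Sum.inr j)) =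
        univ.image fun a : Fin y => φ (Sum.inr (Sum.inl (j, a))) := by
      ext v
      simp only [Finset.mem_filter, Finset.mem_univ, true_and, Finset.mem_image, hcr]
      exact ⟨fun ⟨a, h⟩ => ⟨a, h.symm⟩, fun ⟨a, h⟩ => ⟨a, h.symm⟩⟩
    rw [h1, Finset.card_image_of_injective, Finset.card_univ, Fintype.card_fin]
    intro a a' h
    have := φ.injective h
    simpa using this
  · intro u v i i' hu hv
    obtain ⟨a, rfl⟩ := (hcl _ _).1 hu
    obtain ⟨a', rfl⟩ := (hcl _ _).1 hv
    rw [hadj, hTφ, hTφ]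
    refine and_congr_right fun _ => ⟨?_, ?_⟩
    · rintro ⟨q, hq⟩
      rw [Finset.mem_inter, τ1, τ1] at hq
      obtain ⟨⟨i1, h1⟩, ⟨i2, h2⟩⟩ := hq
      have := e.injective (h1.trans h2.symm)
      exact (Prod.mk.injEq _ _ _ _ ▸ this).1
    · rintro rfl
      exact ⟨e (i, ⟨0, ht⟩), Finset.mem_inter.2 ⟨(τ1 _ _ _).2 ⟨_, rfl⟩, (τ1 _ _ _).2 ⟨_, rfl⟩⟩⟩
  · intro u v j j' hu hv
    obtain ⟨a, rfl⟩ := (hcr _ _).1 hu
    obtain ⟨a', rfl⟩ := (hcr _ _).1 hv
    rw [hadj, hTφ, hTφ]
    refine and_congr_right fun _ => ⟨?_, ?_⟩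
    · rintro ⟨q, hq⟩
      rw [Finset.mem_inter, τ2, τ2] at hq
      obtain ⟨⟨i1, h1⟩, ⟨i2, h2⟩⟩ := hq
      have := e.injective (h1.trans h2.symm)
      exact (Prod.mk.injEq _ _ _ _ ▸ this).2
    · rintro rfl
      exact ⟨e (⟨0, hs⟩, j), Finset.mem_inter.2 ⟨(τ2 _ _ _).2 ⟨_, rfl⟩, (τ2 _ _ _).2 ⟨_, rfl⟩⟩⟩
  · intro u v i j hu hv
    obtain ⟨a, rfl⟩ := (hcl _ _).1 hu
    obtain ⟨b, rfl⟩ := (hcr _ _).1 hv
    rw [hadj, hTφ, hTφ]
    refine ⟨fun h => ?_, e (i, j), Finset.mem_inter.2 ⟨(τ1 _ _ _).2 ⟨_, rfl⟩, (τ2 _ _ _).2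
      ⟨_, rfl⟩⟩⟩
    have := φ.injective h
    simp at this

end Pool.Agent.H99.LK
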