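import Mathlib
import Pool.Agent.H99.LK.LowGraph

/-!
# The lower bound

`s = ⌊√(k/2)⌋`, `t = ⌊√(2k)⌋` (then `s t ≤ k`), `x = (n - 2k) / (2 s)`, `y = (n - 2k) / (2 t)`.
`low_graph` gives a graph with `cc G = k` and
`cp G ≥ (s x)(t y) - s x²/2 - t y² ≥ (1/4 - 1/(8 s) - 1/(4 t)) n² - C n` (`C` depends on `k` only):
`s x, t y ≤ n/2` and `s x, t y ≥ n/2 - k - s - t`.
`1/(8 s) + 1/(4 t) ≤ (1 + ε/2)/(2 √(2k))` for large `k`, since `s ≥ √(k/2) - 1`,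
`t ≥ √(2k) - 1`.
-/

open Finset Filter

namespace Pool.Agent.H99.LK

open Pool.Agent.H22.F10f644

theorem choose_st (ε : ℝ) (hε : 0 < ε) : ∃ k0 : ℕ, ∀ k : ℕ, k0 ≤ k → ∃ s t : ℕ, 0 < s ∧ 0 < t ∧
    s * t ≤ k ∧ 1 / (8 * (s : ℝ)) + 1 / (4 * (t : ℝ)) ≤ (1 + ε / 2) / (2 * √(2 * k)) := by
  refine ⟨⌈(4 / ε + 2) ^ 2⌉₊, fun k hk => ?_⟩
  have hk1 : (4 / ε + 2) ^ 2 ≤ (k : ℝ) := (Nat.le_ceil _).trans (by exact_mod_cast hk)
  set R := √(2 * k) with hR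
  have hR2 : R ^ 2 = 2 * k := Real.sq_sqrt (by positivity)
  have hR0 : 0 ≤ R := Real.sqrt_nonneg _
  have h4e : 0 < 4 / ε := by positivity
  have hRb : 4 / ε + 2 ≤ R := Real.le_sqrt_of_sq_le (by nlinarith)
  have hRe : (1 + ε / 2) * (R - 2) ≥ R := by
    have h1 : ε / 2 * (4 / ε) = 2 := by field_simp; norm_num
    have h2 : ε / 2 * (4 / ε + 2) ≤ ε / 2 * R := mul_le_mul_of_nonneg_left hRb (by positivity)
    nlinarith
  have hR2' : 2 < R := by linarith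
  have hs1 := Nat.lt_floor_add_one (R / 2)
  have ht1 := Nat.lt_floor_add_one R
  have hs2 := Nat.floor_le (show 0 ≤ R / 2 by positivity)
  have ht2 := Nat.floor_le hR0
  have hs3 : 0 < ⌊R / 2⌋₊ := Nat.floor_pos.2 (by linarith)
  have ht3 : 0 < ⌊R⌋₊ := Nat.floor_pos.2 (by linarith)
  refine ⟨⌊R / 2⌋₊, ⌊R⌋₊, hs3, ht3, ?_, ?_⟩
  · have h1 : ((⌊R / 2⌋₊ : ℝ)) * ⌊R⌋₊ ≤ R / 2 * R :=
      mul_le_mul hs2 ht2 (by positivity) (by positivity)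
    have h2 : R / 2 * R = k := by nlinarith
    rw [h2] at h1
    exact_mod_cast h1
  · have hRm : 0 < R - 2 := by linarith
    have h1 : 1 / (8 * (⌊R / 2⌋₊ : ℝ)) ≤ 1 / (4 * (R - 2)) :=
      one_div_le_one_div_of_le (by positivity) (by linarith)
    have h2 : 1 / (4 * (⌊R⌋₊ : ℝ)) ≤ 1 / (4 * (R - 2)) :=
      one_div_le_one_div_of_le (by positivity) (by linarith)
    have h3 : 1 / (4 * (R - 2)) + 1 / (4 * (R - 2)) ≤ (1 + ε / 2) / (2 * R) := by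
      rw [← add_div, div_le_div_iff₀ (by positivity) (by positivity)]
      nlinarith
    linarith

theorem low_asymp {k s t : ℕ} (hs : 0 < s) (ht : 0 < t) (hst : s * t ≤ k) :
    ∃ C : ℝ, ∀ᶠ n : ℕ in atTop, ∃ G : SimpleGraph (Fin n), cc G = k ∧
      (1 / 4 - 1 / (8 * (s : ℝ)) - 1 / (4 * (t : ℝ))) * (n : ℝ) ^ 2 - C * n ≤ cp G := by
  refine ⟨(k : ℝ) + s + t, ?_⟩
  filter_upwards [eventually_ge_atTop (2 * (k + s + t))] with n hn
  have hx1 := Nat.div_mul_le_self (n - 2 * k) (2 * s)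
  have hy1 := Nat.div_mul_le_self (n - 2 * k) (2 * t)
  have hx2 := Nat.lt_div_mul_add (a := n - 2 * k) (b := 2 * s) (by omega)
  have hy2 := Nat.lt_div_mul_add (a := n - 2 * k) (b := 2 * t) (by omega)
  have hx3 : 0 < (n - 2 * k) / (2 * s) := Nat.div_pos (by omega) (by omega)
  have hy3 : 0 < (n - 2 * k) / (2 * t) := Nat.div_pos (by omega) (by omega)
  generalize (n - 2 * k) / (2 * s) = x at *
  generalize (n - 2 * k) / (2 * t) = y at *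
  have hx4 : 2 * (s * x) ≤ n - 2 * k := by
    calc 2 * (s * x) = x * (2 * s) := by ring
      _ ≤ _ := hx1
  have hy4 : 2 * (t * y) ≤ n - 2 * k := by
    calc 2 * (t * y) = y * (2 * t) := by ring
      _ ≤ _ := hy1
  have hx5 : n < 2 * (s * x) + 2 * s + 2 * k := by
    have : 2 * (s * x) = x * (2 * s) := by ring
    omega
  have hy5 : n < 2 * (t * y) + 2 * t + 2 * k := by
    have : 2 * (t * y) = y * (2 * t) := by ring
    omega
  obtain ⟨G, hG1, hG2⟩ := low_graph hs ht hst hx3 hy3 (show s * x + t * y + 2 * k ≤ n by omega)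
  refine ⟨G, hG1, le_trans ?_ hG2⟩
  have hs' : (0 : ℝ) < s := by exact_mod_cast hs
  have ht' : (0 : ℝ) < t := by exact_mod_cast ht
  have hX1 : 2 * ((s : ℝ) * x) ≤ n := by
    have : 2 * (s * x) ≤ n := by omega
    exact_mod_cast this
  have hY1 : 2 * ((t : ℝ) * y) ≤ n := by
    have : 2 * (t * y) ≤ n := by omega
    exact_mod_cast this
  have hX2 : (n : ℝ) < 2 * ((s : ℝ) * x) + 2 * s + 2 * k := by exact_mod_cast hx5
  have hY2 : (n : ℝ) < 2 * ((t : ℝ) * y) + 2 * t + 2 * k := by exact_mod_cast hy5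
  have hn' : 2 * ((k : ℝ) + s + t) ≤ n := by exact_mod_cast hn
  have hk0 : (0 : ℝ) ≤ k := by positivity
  have e1 : (s : ℝ) * x ^ 2 / 2 = ((s : ℝ) * x) ^ 2 / (2 * s) := by
    field_simp
  have e2 : (t : ℝ) * y ^ 2 = ((t : ℝ) * y) ^ 2 / t := by
    field_simp
  rw [e1, e2]
  have hX0 : 0 ≤ (s : ℝ) * x := by positivity
  have hY0 : 0 ≤ (t : ℝ) * y := by positivity
  generalize (s : ℝ) * x = X at *
  generalize (t : ℝ) * y = Y at *
  have h1 : X ^ 2 / (2 * s) ≤ (n : ℝ) ^ 2 / (8 * s) := by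
    rw [div_le_div_iff₀ (by positivity) (by positivity)]
    have h2 : X ^ 2 ≤ (n / 2 : ℝ) ^ 2 := pow_le_pow_left₀ hX0 (by linarith) 2
    have h3 : X ^ 2 * (8 * s) ≤ (n / 2 : ℝ) ^ 2 * (8 * s) :=
      mul_le_mul_of_nonneg_right h2 (by positivity)
    calc X ^ 2 * (8 * s) ≤ (n / 2 : ℝ) ^ 2 * (8 * s) := h3
      _ = _ := by ring
  have h2 : Y ^ 2 / t ≤ (n : ℝ) ^ 2 / (4 * t) := by
    rw [div_le_div_iff₀ (by positivity) (by positivity)]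
    have h2 : Y ^ 2 ≤ (n / 2 : ℝ) ^ 2 := pow_le_pow_left₀ hY0 (by linarith) 2
    have h3 : Y ^ 2 * (4 * t) ≤ (n / 2 : ℝ) ^ 2 * (4 * t) :=
      mul_le_mul_of_nonneg_right h2 (by positivity)
    calc Y ^ 2 * (4 * t) ≤ (n / 2 : ℝ) ^ 2 * (4 * t) := h3
      _ = _ := by ring
  have h3 : (n / 2 - (k + s + t) : ℝ) * (n / 2 - (k + s + t)) ≤ X * Y :=
    mul_le_mul (by linarith) (by linarith) (by linarith) hX0
  have h4 : (n : ℝ) ^ 2 / 4 - (k + s + t) * n ≤ X * Y := by nlinarith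
  calc (1 / 4 - 1 / (8 * (s : ℝ)) - 1 / (4 * (t : ℝ))) * (n : ℝ) ^ 2 - (k + s + t) * n =
      (n : ℝ) ^ 2 / 4 - (k + s + t) * n - (n : ℝ) ^ 2 / (8 * s) - (n : ℝ) ^ 2 / (4 * t) := by ring
    _ ≤ _ := by linarith

theorem lower (ε : ℝ) (hε : 0 < ε) :
    ∃ k0 : ℕ, ∀ k : ℕ, k0 ≤ k → ∀ᶠ n : ℕ in atTop, ∃ G : SimpleGraph (Fin n), cc G = k ∧
      (1 / 4 - (1 + ε) / (2 * √(2 * k))) * (n : ℝ) ^ 2 ≤ cp G := by
  obtain ⟨k0, hk0⟩ := choose_st ε hε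
  refine ⟨k0, fun k hk => ?_⟩
  obtain ⟨s, t, hs, ht, hst, hb⟩ := hk0 k hk
  obtain ⟨C, hC⟩ := low_asymp hs ht hst
  have hkpos : 0 < k := lt_of_lt_of_le (Nat.mul_pos hs ht) hst
  have hR : 0 < √(2 * (k : ℝ)) := Real.sqrt_pos.2 (by positivity)
  set R := √(2 * (k : ℝ))
  filter_upwards [hC, eventually_ge_atTop ⌈C * (4 * R / ε)⌉₊] with n hn hn2
  obtain ⟨G, hG1, hG2⟩ := hn
  refine ⟨G, hG1, le_trans ?_ hG2⟩
  have h1 : C * (4 * R / ε) ≤ n := (Nat.le_ceil _).trans (by exact_mod_cast hn2)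
  have h2 : C ≤ ε / (4 * R) * n := by
    have h3 : C * (4 * R / ε) * (ε / (4 * R)) = C := by field_simp
    have h4 := mul_le_mul_of_nonneg_right h1 (show 0 ≤ ε / (4 * R) by positivity)
    rw [h3] at h4
    linarith
  have h3 : C * n ≤ ε / (4 * R) * n * n := mul_le_mul_of_nonneg_right h2 (by positivity)
  have h4 : (1 + ε) / (2 * R) = (1 + ε / 2) / (2 * R) + ε / (4 * R) := by
    field_simp
    ring
  have h5 : (1 / (8 * (s : ℝ)) + 1 / (4 * (t : ℝ))) * (n : ℝ) ^ 2 ≤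
      (1 + ε / 2) / (2 * R) * (n : ℝ) ^ 2 := mul_le_mul_of_nonneg_right hb (by positivity)
  rw [h4]
  nlinarith

end Pool.Agent.H99.LK
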