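import Mathlib
import Pool.Agent.H29.CPR.Main
import Pool.Agent.H99.TF.Limit
import Pool.Agent.H99.TF.Trans
import Pool.Agent.H99.LK.Kernel

/-!
# Upper bound for graphs with large clique cover number
-/

open Finset Filter

namespace Pool.Agent.H99.LK

open Pool.Agent.H22.F10f644 Pool.Agent.H29.CPR Pool.Agent.H69.CPR Pool.Agent.H99.CP
  Pool.Agent.H99.TF

/-- a cover by at most `k` cliques gives types in `Finset (Fin k)` -/
theorem exists_types_le {n k : ℕ} (G : SimpleGraph (Fin n)) (h : cc G ≤ k) :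
    ∃ S : Fin n → Finset (Fin k), G = tg S := by
  obtain ⟨F, hF, hFc⟩ := cc_spec G
  obtain ⟨S, hS⟩ := exists_types G F hF hFc
  refine ⟨fun v => (S v).map (Fin.castLEEmb h), ?_⟩
  have key : ∀ u v, ((S u).map (Fin.castLEEmb h) ∩ (S v).map (Fin.castLEEmb h)).Nonempty ↔
      (S u ∩ S v).Nonempty := by
    intro u v
    rw [← Finset.map_inter, Finset.map_nonempty]
  ext u v
  have h1 : G.Adj u v ↔ (tg S).Adj u v := by rw [← hS]
  rw [h1]
  constructor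
  · rintro ⟨hne, hi⟩
    exact ⟨hne, (key u v).2 hi⟩
  · rintro ⟨hne, hi⟩
    exact ⟨hne, (key u v).1 hi⟩

/-- the kernel inequality in homogeneous form -/
theorem kernel_hom {k : ℕ} {Y : Finset (Fin k) → Finset (Fin k) → ℝ} (hY : TMK Y)
    {m : Finset (Fin k) → ℝ} (hm : ∀ A, 0 ≤ m A) {ε κ : ℝ} (hε : 0 < ε)
    (hε1 : ε ≤ 1) (hκ : 0 < κ) (hκk : 2 * κ ^ 2 * k = 1) (hκ0 : κ ≤ ε ^ 3 / 10 ^ 8) :
    qf Y m ≤ (1 / 2 - (1 - ε) * κ) * (∑ A, m A) ^ 2 := by
  rcases eq_or_lt_of_le (Finset.sum_nonneg fun A (_ : A ∈ (univ : Finset (Finset (Fin k)))) =>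
    hm A) with h0 | h0
  · have h1 : ∀ A, m A = 0 := by
      intro A
      exact (Finset.sum_eq_zero_iff_of_nonneg fun A _ => hm A).1 h0.symm A (Finset.mem_univ A)
    have h2 : qf Y m = 0 := by
      unfold qf
      refine Finset.sum_eq_zero fun A _ => Finset.sum_eq_zero fun B _ => ?_
      rw [h1 A]
      ring
    rw [h2, ← h0]
    simp
  · set s : ℝ := ∑ A, m A with hs
    have h1 : ∑ A, m A / s = 1 := by
      rw [← Finset.sum_div, ← hs, div_self h0.ne']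
    have h2 := kernel hY (m := fun A => m A / s) (fun A => div_nonneg (hm A) h0.le) h1 hε hε1 hκ
      hκk hκ0
    have h3 : m = fun A => s * (m A / s) := by
      funext A
      field_simp
    have h4 : qf Y m = s ^ 2 * qf Y (fun A => m A / s) := by
      conv_lhs => rw [h3]
      exact qf_smul Y (fun A => m A / s) s
    rw [h4]
    have := mul_le_mul_of_nonneg_left h2 (sq_nonneg s)
    linarith

theorem upper (ε : ℝ) (hε : 0 < ε) :
    ∃ k0 : ℕ, ∀ k : ℕ, k0 ≤ k → ∀ᶠ n : ℕ in atTop, ∀ G : SimpleGraph (Fin n), cc G ≤ k →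
      (cp G : ℝ) ≤ (1 / 4 - (1 - ε) / (2 * √(2 * k))) * (n : ℝ) ^ 2 := by
  obtain ⟨e, he⟩ : ∃ e : ℝ, e = min ε 1 / 2 := ⟨_, rfl⟩
  have he0 : 0 < e := by rw [he]; positivity
  have he1 : e ≤ 1 / 2 := by
    rw [he]
    have := min_le_right ε 1
    linarith
  have heε : e < ε := by
    rw [he]
    have := min_le_left ε 1
    linarith
  obtain ⟨M, hM⟩ : ∃ M : ℝ, M = 10 ^ 8 / e ^ 3 := ⟨_, rfl⟩
  have hM0 : 0 < M := by rw [hM]; positivity
  obtain ⟨k0, hk0⟩ := exists_nat_ge (M ^ 2)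
  refine ⟨k0 + 1, fun k hk => ?_⟩
  have hkM : M ^ 2 ≤ k := by
    refine hk0.trans ?_
    exact_mod_cast (Nat.le_succ k0).trans hk
  have hkpos : (0 : ℝ) < k := lt_of_lt_of_le (by positivity) hkM
  have hsM : M ≤ √(2 * k) := by
    apply Real.le_sqrt_of_sq_le
    linarith
  have hspos : 0 < √(2 * (k : ℝ)) := lt_of_lt_of_le hM0 hsM
  have hsq : √(2 * (k : ℝ)) ^ 2 = 2 * k := Real.sq_sqrt (by positivity)
  obtain ⟨κ, hκ⟩ : ∃ κ : ℝ, κ = 1 / √(2 * (k : ℝ)) := ⟨_, rfl⟩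
  have hκ0 : 0 < κ := by rw [hκ]; positivity
  have hκk : 2 * κ ^ 2 * k = 1 := by
    rw [hκ, div_pow, one_pow, hsq]
    field_simp
  have hκe : κ ≤ e ^ 3 / 10 ^ 8 := by
    have h1 : κ ≤ 1 / M := by
      rw [hκ]
      exact one_div_le_one_div_of_le hM0 hsM
    refine h1.trans (le_of_eq ?_)
    rw [hM, one_div_div]
  have hκ1 : κ ≤ 1 / 2 := by
    refine hκe.trans ?_
    have : e ^ 3 ≤ 1 := pow_le_one₀ he0.le (by linarith)
    linarith
  obtain ⟨V, hV⟩ : ∃ V : ℝ, V = 1 / 4 - (1 - e) * κ / 2 := ⟨_, rfl⟩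
  have hV0 : 0 ≤ V := by
    rw [hV]
    nlinarith
  obtain ⟨δ, hδ⟩ : ∃ δ : ℝ, δ = (ε - e) * κ / 4 := ⟨_, rfl⟩
  have hδ0 : 0 < δ := by
    rw [hδ]
    have := mul_pos (sub_pos.2 heε) hκ0
    linarith
  obtain ⟨C, hC⟩ := dualBoundOn_of_kernel (univ : Finset (Finset (Fin k))) V hV0
    (fun Y hY m hm _ => by
      have h1 := kernel_hom hY hm he0 (by linarith) hκ0 hκk hκe
      have h2 : 2 * V = 1 / 2 - (1 - e) * κ := by rw [hV]; ring
      rw [h2]
      exact h1) δ hδ0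
  obtain ⟨n0, hn0⟩ := transferOn (Finset.mem_univ _) (by linarith : 0 ≤ V + δ) hC δ hδ0
  filter_upwards [eventually_ge_atTop n0] with n hn G hG
  obtain ⟨S, hS⟩ := exists_types_le G hG
  have h1 := hn0 n hn S (fun v => Finset.mem_univ _)
  rw [← hS] at h1
  have h2 : V + δ + δ = 1 / 4 - (1 - ε) / (2 * √(2 * (k : ℝ))) := by
    have h3 : (1 - ε) / (2 * √(2 * (k : ℝ))) = (1 - ε) * κ / 2 := by
      rw [hκ]
      field_simp
    rw [h3, hV, hδ]
    ring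
  rw [h2] at h1
  exact h1

end Pool.Agent.H99.LK
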